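import Pool.Agent.Run7.h439.DC.Ld
import Pool.Agent.Run7.h439.DC.Dig

set_option autoImplicit false

/-!
# Scaled total stopping times in the classes defined by digits in odd bases

The integers whose values of given strongly additive digit functions (for example sums of digits), in
pairwise coprime odd bases, lie in given residue classes, have the same scaled total stopping times as all
integers: every bounded function of the pair (total stopping time, number of odd terms) has in every class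
its proportional share of the sum over all `n ≤ X`, with an error term `O(X ^ (1 - c))` which is uniform in
the function and in the class. The same holds for the number of `n ≤ X` with `γ_∞(n) ≥ g`, and near the
mean value the large deviation law has its full exponent in every class.

Method: a dispersion argument. The pair is, for `n > 2 ^ t`, a function of `T^t(n)` and the number of odd
terms before it; for a given number of odd terms the integers `n ≤ N` with the same `T^t(n)` lie in a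
short interval and are determined by their residue modulo `2 ^ t`, and the correlations of the
multiplicative digit functions along the progressions modulo `2 ^ t` are products over the bases.
-/

namespace Pool.Agent.Results.MP_f7abf1_nt.DigitClassesScaledTimes

open Filter Topology ENNReal

/-- the `3x+1` function -/
def T (n : ℕ) : ℕ := if n % 2 = 0 then n / 2 else (3 * n + 1) / 2

/-- the total stopping time, the least `k` with `T^k(n) = 1`, and `⊤ = ∞` if there is none -/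
noncomputable def sigma (n : ℕ) : ℕ∞ := sInf {k : ℕ∞ | ∃ j : ℕ, T^[j] n = 1 ∧ k = j}

/-- the number of odd terms among `n, T n, ..., T^(k-1) n` -/
def odds (k n : ℕ) : ℕ := ((Finset.range k).filter fun i => T^[i] n % 2 = 1).card

/-- the number of odd terms of the trajectory before `1` is reached for the first time, and `0` if it is
never reached -/
noncomputable def oddTerms (n : ℕ) : ℕ := odds (sigma n).toNat n

/-- The scaled total stopping time `γ_∞(n) = σ_∞(n) / log n` in `[0, ∞]` (used for `n ≥ 2`). -/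
noncomputable def scaled (n : ℕ) : ℝ≥0∞ := (sigma n : ℝ≥0∞) / ENNReal.ofReal (Real.log n)

/-- `g(a) = sup_θ (θ a - log (½ (2^θ + (2/3)^θ)))`. -/
noncomputable def g (a : ℝ) : ℝ :=
  ⨆ θ : ℝ, (θ * a - Real.log ((1 / 2) * ((2 : ℝ) ^ θ + (2 / 3 : ℝ) ^ θ)))

/-- `W` is strongly `q`-additive: `W(n)` is the sum of the values of `W` at the digits of `n` in base `q`. -/
def StronglyAdditive (q : ℕ) (W : ℕ → ℤ) : Prop := ∀ n r : ℕ, r < q → W (q * n + r) = W n + W r

/-- There is no prime `p ∣ m` such that `W(r) ≡ r W(1)` modulo `p` for all `r ≤ q`. For the sum of the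
digits in base `q` this says that `m` is coprime to `q - 1`. -/
def Unobstructed (q : ℕ) (W : ℕ → ℤ) (m : ℕ) : Prop :=
  ∀ p : ℕ, p.Prime → p ∣ m → ∃ r : ℕ, r ≤ q ∧ ¬ W r ≡ r * W 1 [ZMOD p]

/-- The data: pairwise coprime odd bases `q i ≥ 3`, strongly `q i`-additive functions `W i` with integer
values, and moduli `m i ≥ 1` without obstruction. -/
structure Data {l : ℕ} (q m : Fin l → ℕ) (W : Fin l → ℕ → ℤ) : Prop where
  odd : ∀ i, 3 ≤ q i ∧ q i % 2 = 1
  coprime : ∀ i j, i ≠ j → Nat.Coprime (q i) (q j)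
  additive : ∀ i, StronglyAdditive (q i) (W i)
  pos : ∀ i, 1 ≤ m i
  free : ∀ i, Unobstructed (q i) (W i) (m i)

/-- the class: `W i (n) ≡ a i` modulo `m i` for all `i` -/
def InClass {l : ℕ} (m : Fin l → ℕ) (W : Fin l → ℕ → ℤ) (a : Fin l → ℤ) (n : ℕ) : Prop :=
  ∀ i, W i n ≡ a i [ZMOD m i]

/-- the positive integers with the property `P` have the natural density `d` -/
def HasDensity (P : ℕ → Prop) (d : ℝ) : Prop :=
  Tendsto (fun N : ℕ => ({n : ℕ | 1 ≤ n ∧ n ≤ N ∧ P n}.ncard : ℝ) / N) atTop (𝓝 d)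

/-- the number of the `n` with `2 ≤ n ≤ X` and the property `P` -/
noncomputable def count (P : ℕ → Prop) (X : ℕ) : ℝ := ({n : ℕ | 2 ≤ n ∧ n ≤ X ∧ P n}.ncard : ℝ)

/-- `2 / log (4/3) * log n + x * log 3 * √(2 log n / (log (4/3))^3)` -/
noncomputable def bound (x : ℝ) (n : ℕ) : ℝ :=
  2 / Real.log (4 / 3) * Real.log n
    + x * (Real.log 3 * Real.sqrt (2 * Real.log n / Real.log (4 / 3) ^ 3))

/-- The distribution function of the standard normal law. -/
noncomputable def Phi (x : ℝ) : ℝ :=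
  ProbabilityTheory.cdf (ProbabilityTheory.gaussianReal 0 1) x

/-- The total stopping time of `n` is finite, at most `bound x n`, congruent to `u` modulo `r`, and the
number of odd terms of the trajectory before `1` is reached is congruent to `v` modulo `r`. -/
def Level (r : ℕ) (u v : ℤ) (x : ℝ) (n : ℕ) : Prop :=
  ∃ t : ℕ, sigma n = t ∧ (t : ℝ) ≤ bound x n ∧ (t : ℤ) ≡ u [ZMOD r] ∧ (odds t n : ℤ) ≡ v [ZMOD r]

open Pool.Agent.H499R2.HL Pool.Agent.Y965.PL Pool.Agent.Run7.h439.DC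

theorem T_eq : T = Pool.Agent.H499R2.ND.Tn := by funext a; rfl

theorem sigma_eq {n k : ℕ} (h : H k n) : sigma n = k := by
  unfold sigma
  rw [T_eq]
  apply le_antisymm
  · exact sInf_le ⟨k, h.1, rfl⟩
  · refine le_sInf ?_
    rintro j ⟨i, hi, rfl⟩
    have : k ≤ i := by
      by_contra hlt
      exact h.2 i (by omega) hi
    exact_mod_cast this

theorem sigma_top {n : ℕ} (h : ¬ ∃ k, H k n) : sigma n = ⊤ := by
  unfold sigma
  rw [T_eq]
  have : {k : ℕ∞ | ∃ j : ℕ, Pool.Agent.H499R2.ND.Tn^[j] n = 1 ∧ k = j} = ∅ := by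
    rw [Set.eq_empty_iff_forall_notMem]
    rintro k ⟨j, hj, _⟩
    exact h (H_iff_ex.2 ⟨j, hj⟩)
  rw [this, sInf_empty]

theorem sigma_ne_top {n : ℕ} : sigma n ≠ ⊤ ↔ ∃ k, H k n := by
  constructor
  · intro h
    by_contra hcon
    exact h (sigma_top hcon)
  · rintro ⟨k, hk⟩
    rw [sigma_eq hk]
    exact ENat.natCast_ne_top k

theorem sigma_iff {n k : ℕ} : sigma n = k ↔ H k n := by
  constructor
  · intro h
    obtain ⟨k', hk'⟩ := sigma_ne_top.1 (show sigma n ≠ ⊤ by rw [h]; exact ENat.natCast_ne_top k)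
    have h1 := sigma_eq hk'
    rw [h] at h1
    have h2 : k = k' := by exact_mod_cast h1
    rw [h2]; exact hk'
  · exact sigma_eq

theorem level_iff (r : ℕ) (u v : ℤ) (x : ℝ) (n : ℕ) : Level r u v x n ↔
    Lv valK (clsK r u v) (th (2 / Real.log (4 / 3)) bK x) n := by
  unfold Level Lv valK clsK bK
  refine exists_congr fun k => ?_
  rw [th_eq, sigma_iff]
  exact Iff.rfl

theorem count_ind (P : ℕ → Prop) (X : ℕ) :
    ({n : ℕ | 1 ≤ n ∧ n ≤ X ∧ P n}.ncard : ℝ) = ∑ n ∈ Finset.Icc 1 X, ind P n := by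
  classical
  unfold ind
  rw [Finset.sum_boole]
  have e : {n : ℕ | 1 ≤ n ∧ n ≤ X ∧ P n} = ((Finset.Icc 1 X).filter fun n => P n : Finset ℕ) := by
    ext n
    simp only [Set.mem_ofPred_eq, Finset.coe_filter, Finset.mem_Icc, and_assoc]
  rw [e, Set.ncard_coe_finset]

theorem count_ind2 (P : ℕ → Prop) (X : ℕ) : count P X = ∑ n ∈ Finset.Icc 1 X, ind (fun n => 2 ≤ n ∧ P n) n := by
  unfold count
  rw [← count_ind]
  congr 2
  ext n
  simp only [Set.mem_ofPred_eq]
  constructor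
  · rintro ⟨h1, h2, h3⟩; exact ⟨by omega, h2, h1, h3⟩
  · rintro ⟨_, h2, h1, h3⟩; exact ⟨h1, h2, h3⟩

theorem along_of {P Q : ℕ → Prop} {d : ℝ} (h : MnS id (ind Q) d) (hPQ : ∀ n, P n ↔ Q n) : HasDensity P d := by
  unfold HasDensity
  unfold MnS at h
  refine h.congr fun X => ?_
  rw [count_ind P X]
  congr 1
  apply Finset.sum_congr rfl
  intro n _
  exact ind_congr (hPQ _).symm

theorem scaled_top {n : ℕ} (h : sigma n = ⊤) : scaled n = ⊤ := by
  unfold scaled
  rw [h, ENat.toENNReal_top]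
  exact ENNReal.top_div_of_ne_top ENNReal.ofReal_ne_top

theorem scaled_eq {n k : ℕ} (h : H k n) : scaled n = ENNReal.ofReal ((k : ℝ) / Real.log n) := by
  unfold scaled
  rw [sigma_eq h, ENat.toENNReal_coe, ← ENNReal.ofReal_natCast]
  rcases (Real.log_natCast_nonneg n).eq_or_lt with h0 | h0
  · have hk : k = 0 := by
      rcases Nat.lt_trichotomy n 1 with h1 | h1 | h1
      · exfalso
        have hn : n = 0 := by omega
        subst hn
        have h2 : ∀ j : ℕ, Pool.Agent.H499R2.ND.Tn^[j] 0 = 0 := by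
          intro j
          induction j with
          | zero => rfl
          | succ j ih => rw [Function.iterate_succ_apply', ih]; rfl
        have := h.1
        rw [h2] at this
        omega
      · subst h1
        by_contra hk
        exact h.2 0 (by omega) rfl
      · exfalso
        have : 0 < Real.log (n : ℝ) := Real.log_pos (by exact_mod_cast h1)
        linarith
    subst hk
    simp
  · rw [ENNReal.ofReal_div_of_pos h0]

theorem scaled_top_iff (n : ℕ) : scaled n = ⊤ ↔ ¬ ∃ k, H k n := by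
  constructor
  · rintro hs ⟨k, hk⟩
    rw [scaled_eq hk] at hs
    exact ENNReal.ofReal_ne_top hs
  · intro hn
    exact scaled_top (sigma_top hn)

theorem win_iff' {g1 g2 : ℝ} (h1 : 0 ≤ g1) (h2 : g1 ≤ g2) (n : ℕ) :
    (2 ≤ n ∧ ENNReal.ofReal g1 ≤ scaled n ∧ scaled n ≤ ENNReal.ofReal g2) ↔ Win g1 g2 2 n := by
  unfold Win
  apply and_congr_right
  intro hn
  have hl : 0 < Real.log (n : ℝ) := Real.log_pos (by exact_mod_cast hn)
  constructor
  · rintro ⟨h3, h4⟩
    have h5 : ∃ k, H k n := by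
      by_contra hcon
      rw [(scaled_top_iff n).2 hcon] at h4
      exact ENNReal.ofReal_ne_top (top_le_iff.1 h4)
    obtain ⟨k, hk⟩ := h5
    rw [scaled_eq hk, ENNReal.ofReal_le_ofReal_iff (by positivity), le_div_iff₀ hl] at h3
    rw [scaled_eq hk, ENNReal.ofReal_le_ofReal_iff (by linarith), div_le_iff₀ hl] at h4
    exact ⟨k, hk, h3, h4⟩
  · rintro ⟨k, hk, h3, h4⟩
    rw [scaled_eq hk, ENNReal.ofReal_le_ofReal_iff (by positivity), ENNReal.ofReal_le_ofReal_iff (by linarith),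
      le_div_iff₀ hl, div_le_iff₀ hl]
    exact ⟨h3, h4⟩

theorem big_iff {x : ℝ} (n : ℕ) : (2 ≤ n ∧ ENNReal.ofReal x ≤ scaled n) ↔ Big x 2 n := by
  unfold Big
  apply and_congr_right
  intro hn
  have hl : 0 < Real.log (n : ℝ) := Real.log_pos (by exact_mod_cast hn)
  constructor
  · rintro h3 ⟨k, hk, h4⟩
    rw [scaled_eq hk, ENNReal.ofReal_le_ofReal_iff (by positivity), le_div_iff₀ hl] at h3
    linarith
  · intro h3
    by_cases h5 : ∃ k, H k n
    · obtain ⟨k, hk⟩ := h5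
      rw [scaled_eq hk, ENNReal.ofReal_le_ofReal_iff (by positivity), le_div_iff₀ hl]
      by_contra hcon
      exact h3 ⟨k, hk, not_le.1 hcon⟩
    · rw [(scaled_top_iff n).2 h5]; exact le_top

/-- SCALED TOTAL STOPPING TIMES IN DIGIT CLASSES. The positive integers with finite total stopping time
have a positive natural density `δ`, and `δ = 1` if and only if all are of this kind. For all data
`q, m, W` there are `K`, `c > 0` and `α₀ > 2 / log (4/3) = 6.952...` such that for every class `a`, with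
`ρ = ∏ 1 / m i`:

(1) (Uniform transfer.) For every function `φ` of two variables, bounded by `1`, and all `X ≥ 1` the sum of
`φ` at the pair (total stopping time, number of odd terms) over the `n ≤ X` in the class is `ρ` times the
sum over all `n ≤ X`, up to `K X ^ (1 - c)`.

(2) For all `0 ≤ g₁ ≤ g₂` the number of the `2 ≤ n ≤ X` in the class with `g₁ ≤ γ_∞(n) ≤ g₂` is `ρ` times
the number of all such `n`, up to `K (g₂ + 1) X ^ (1 - c)`; and the same for the condition
`γ_∞(n) ≥ g₂`, infinite values included.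

(3) The `n` in the class with `γ_∞(n) = ∞` have natural density `ρ (1 - δ)`.

(4) The `n` in the class for which `σ_∞(n)` is finite, `≡ u` modulo `r` and at most `bound x`, and for
which the number of odd terms is `≡ v` modulo `r`, have natural density `ρ δ Phi(x) / r ^ 2`.

(5) For every continuous function `h` on `[0, ∞]` the mean value over the class of `h(γ_∞(n))` is
`ρ (δ h(2 / log (4/3)) + (1 - δ) h(∞))`.

(6) (Large deviations near the mean.) For every `α > 1 / log 2` with `α g(1/α) < c` and every `ε > 0`, for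
all large `X` at least `X ^ (1 - α g(1/α) - ε)` of the `2 ≤ n ≤ X` in the class satisfy
`|σ_∞(n) / log n - α| ≤ ε`.

(7) In every class infinitely many `n` satisfy `α₀ log n ≤ σ_∞(n) < ∞`. -/
theorem result : ∃ δ : ℝ, 0 < δ ∧ δ ≤ 1 ∧ (δ = 1 ↔ ∀ n : ℕ, 1 ≤ n → sigma n ≠ ⊤) ∧
    HasDensity (fun n => sigma n ≠ ⊤) δ ∧
    ∀ (l : ℕ) (q m : Fin l → ℕ) (W : Fin l → ℕ → ℤ), Data q m W →
    ∃ K c α₀ : ℝ, 0 < c ∧ 2 / Real.log (4 / 3) < α₀ ∧ ∀ a : Fin l → ℤ,
    (∀ φ : ℕ∞ → ℕ → ℝ, (∀ t o, |φ t o| ≤ 1) → ∀ X : ℕ, 1 ≤ X →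
      |∑ᶠ n ∈ {n : ℕ | 1 ≤ n ∧ n ≤ X ∧ InClass m W a n}, φ (sigma n) (oddTerms n) -
        (∏ i, 1 / (m i : ℝ)) * ∑ n ∈ Finset.Icc 1 X, φ (sigma n) (oddTerms n)| ≤ K * (X : ℝ) ^ (1 - c)) ∧
    (∀ g₁ g₂ : ℝ, 0 ≤ g₁ → g₁ ≤ g₂ → ∀ X : ℕ, 1 ≤ X →
      |count (fun n => InClass m W a n ∧ ENNReal.ofReal g₁ ≤ scaled n ∧ scaled n ≤ ENNReal.ofReal g₂) X -
        (∏ i, 1 / (m i : ℝ)) * count (fun n => ENNReal.ofReal g₁ ≤ scaled n ∧ scaled n ≤ ENNReal.ofReal g₂) X| ≤
        K * (g₂ + 1) * (X : ℝ) ^ (1 - c) ∧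
      |count (fun n => InClass m W a n ∧ ENNReal.ofReal g₂ ≤ scaled n) X -
        (∏ i, 1 / (m i : ℝ)) * count (fun n => ENNReal.ofReal g₂ ≤ scaled n) X| ≤
        K * (g₂ + 1) * (X : ℝ) ^ (1 - c)) ∧
    HasDensity (fun n => InClass m W a n ∧ scaled n = ⊤) ((∏ i, 1 / (m i : ℝ)) * (1 - δ)) ∧
    (∀ (r : ℕ) (u v : ℤ) (x : ℝ), 1 ≤ r →
      HasDensity (fun n => InClass m W a n ∧ Level r u v x n) ((∏ i, 1 / (m i : ℝ)) * (δ * Phi x / r ^ 2))) ∧
    (∀ h : ℝ≥0∞ → ℝ, Continuous h →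
      Tendsto (fun X : ℕ => (∑ᶠ n ∈ {n : ℕ | 1 ≤ n ∧ n ≤ X ∧ InClass m W a n}, h (scaled n)) / X)
      atTop (𝓝 ((∏ i, 1 / (m i : ℝ)) * (δ * h (ENNReal.ofReal (2 / Real.log (4 / 3))) + (1 - δ) * h ⊤)))) ∧
    (∀ α : ℝ, 1 / Real.log 2 < α → α * g (1 / α) < c → ∀ ε : ℝ, 0 < ε → ∃ X₀ : ℕ, ∀ X : ℕ, X₀ ≤ X →
      (X : ℝ) ^ (1 - α * g (1 / α) - ε) ≤
        count (fun n => InClass m W a n ∧ ∃ t : ℕ, sigma n = t ∧ |(t : ℝ) / Real.log n - α| ≤ ε) X) ∧
    ∀ N : ℕ, ∃ n : ℕ, N ≤ n ∧ InClass m W a n ∧ ∃ t : ℕ, sigma n = t ∧ α₀ * Real.log n ≤ t := by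
  classical
  obtain ⟨δ, hδ, h2, h3⟩ := nat1
  have hν := nu_pos'
  refine ⟨δ, hδ.pos, hδ.le, ?_, ?_, fun l q m W hD => ?_⟩
  · rw [h2]
    refine forall₂_congr fun n _ => ?_
    rw [sigma_ne_top, H_iff_ex]
  · have h4 : Pool.Agent.H499R2.ND.Dn (fun n => sigma n ≠ ⊤) δ :=
      Pool.Agent.H499R2.LT.Dn_iff (fun n _ => by rw [sigma_ne_top, H_iff_ex]) h3
    exact h4
  have hDD : DD 2 q m W := by
    refine ⟨fun i => (hD.odd i).1, fun i => ?_, hD.coprime, hD.additive, hD.pos, hD.free⟩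
    rw [Nat.coprime_two_left]
    exact Nat.odd_iff.2 (hD.odd i).2
  obtain ⟨C, c, hC, hc0, hc1, hT⟩ := cta_digits hDD
  obtain ⟨hρ0, hρ1⟩ := rho01 hD.pos
  set ρ : ℝ := ∏ i, 1 / (m i : ℝ) with hρ
  set K : ℝ := 4 * C * (1 + 2 / c) with hK
  have hCK : C ≤ K := by
    rw [hK]
    have : 0 ≤ 2 / c := by positivity
    nlinarith
  obtain ⟨α, hα1, hα2, hα3⟩ := exists_alpha (show 0 < c / 2 by positivity)
  refine ⟨K, c / 2, (2 / Real.log (4 / 3) + α) / 2, by positivity, by linarith, fun a => ?_⟩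
  have hA := hT a
  have hLaw := hA.Law hρ0.le hρ1 hc0 (val := valK) (A := 2 / Real.log (4 / 3)) (b := bK) (δ := δ) (by positivity) bK_pos
    hδ.fin (nat1_law hδ)
  have hcl : ∀ n, InClass m W a n ↔ Ed m W a n := fun n => Ed_iff
  have hset : ∀ (X : ℕ) (f : ℕ → ℝ), ∑ᶠ n ∈ {n : ℕ | 1 ≤ n ∧ n ≤ X ∧ InClass m W a n}, f n =
      ∑ n ∈ Finset.Icc 1 X, ind (Ed m W a) n * f n := by
    intro X f
    rw [finsum_mem_eq_finite_toFinset_sum _ ((Set.finite_Iic X).subset fun n hn => hn.2.1)]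
    have e : ((Set.finite_Iic X).subset fun n (hn : n ∈ {n : ℕ | 1 ≤ n ∧ n ≤ X ∧ InClass m W a n}) => hn.2.1).toFinset
        = (Finset.Icc 1 X).filter (fun n => Ed m W a n) := by
      ext n
      simp only [Set.Finite.mem_toFinset, Set.mem_ofPred_eq, Finset.mem_filter, Finset.mem_Icc, hcl, and_assoc]
    rw [e, Finset.sum_filter]
    apply Finset.sum_congr rfl
    intro n _
    by_cases h : Ed m W a n
    · rw [if_pos h, ind_pos h, one_mul]
    · rw [if_neg h, ind_neg h, zero_mul]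
  have hcnt : ∀ (P Q : ℕ → Prop) (X : ℕ), (∀ n, (2 ≤ n ∧ P n) ↔ Q n) → count (fun n => InClass m W a n ∧ P n) X =
      ∑ n ∈ Finset.Icc 1 X, ind (Ed m W a) n * ind Q n := by
    intro P Q X hPQ
    rw [count_ind2]
    apply Finset.sum_congr rfl
    intro n _
    rw [← ind_and]
    apply ind_congr
    rw [← hPQ, hcl]
    tauto
  have hcnt' : ∀ (P Q : ℕ → Prop) (X : ℕ), (∀ n, (2 ≤ n ∧ P n) ↔ Q n) → count P X =
      ∑ n ∈ Finset.Icc 1 X, ind Q n := by
    intro P Q X hPQ
    rw [count_ind2]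
    apply Finset.sum_congr rfl
    intro n _
    exact ind_congr (hPQ n)
  have hld : ∀ α : ℝ, 1 / Real.log 2 < α → α * g (1 / α) < c / 2 → ∀ ε : ℝ, 0 < ε → ∃ X₀ : ℕ, ∀ X : ℕ, X₀ ≤ X →
      (X : ℝ) ^ (1 - α * g (1 / α) - ε) ≤
        count (fun n => InClass m W a n ∧ ∃ t : ℕ, sigma n = t ∧ |(t : ℝ) / Real.log n - α| ≤ ε) X := by
    intro α hα hαc ε hε
    obtain ⟨X₀, hX₀⟩ := hA.ld hρ0 hC hc0 hc1 hα hαc hε
    refine ⟨⌈X₀⌉₊, fun X hX => ?_⟩
    have h4 := hX₀ X ((Nat.le_ceil X₀).trans (by exact_mod_cast hX))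
    rw [Nat.floor_natCast] at h4
    refine h4.trans (le_of_eq ?_)
    rw [hcnt _ (Win (α - ε) (α + ε) 2) X]
    intro n
    unfold Win
    apply and_congr_right
    intro hn
    have hl : 0 < Real.log (n : ℝ) := Real.log_pos (by exact_mod_cast hn)
    refine exists_congr fun t => ?_
    rw [sigma_iff]
    apply and_congr_right
    intro _
    rw [abs_le]
    constructor
    · rintro ⟨h5, h6⟩
      have h7 : α - ε ≤ t / Real.log n := by linarith
      have h8 : t / Real.log n ≤ α + ε := by linarith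
      rw [le_div_iff₀ hl] at h7
      rw [div_le_iff₀ hl] at h8
      exact ⟨h7, h8⟩
    · rintro ⟨h5, h6⟩
      rw [← le_div_iff₀ hl] at h5
      rw [← div_le_iff₀ hl] at h6
      constructor <;> linarith
  refine ⟨fun φ hφ X hX => ?_, fun g₁ g₂ hg1 hg X hX => ⟨?_, ?_⟩, ?_, ?_, ?_, hld, ?_⟩
  · have h1 := hA.fg (g := fun k o => φ k o) (g0 := φ ⊤ 0) (fun _ _ => hφ _ _) (hφ _ _)
    have h4 := h1.tr X hX
    have e : ∀ n, Fg (fun k o => φ k o) (φ ⊤ 0) n = φ (sigma n) (oddTerms n) := by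
      intro n
      by_cases h : ∃ k, H k n
      · obtain ⟨k, hk⟩ := h
        rw [Fg_H hk]
        unfold oddTerms
        rw [sigma_eq hk, ENat.toNat_natCast]
        rfl
      · rw [Fg_not h]
        unfold oddTerms
        rw [sigma_top h, ENat.toNat_top]
        rfl
    simp only [e] at h4
    rw [hset]
    refine h4.trans ?_
    have hXR : (1 : ℝ) ≤ X := by exact_mod_cast hX
    have h5 : (X : ℝ) ^ (1 - c) ≤ (X : ℝ) ^ (1 - c / 2) := Real.rpow_le_rpow_of_exponent_le hXR (by linarith)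
    exact mul_le_mul hCK h5 (by positivity) (hC.trans hCK)
  · rw [hcnt _ (Win g₁ g₂ 2) X (win_iff' hg1 hg), hcnt' _ (Win g₁ g₂ 2) X (win_iff' hg1 hg)]
    exact hA.win hC hc0 hc1 2 hg1 hg hX
  · rw [hcnt _ (Big g₂ 2) X big_iff, hcnt' _ (Big g₂ 2) X big_iff]
    exact hA.big hC hc0 hc1 2 (hg1.trans hg) hX
  · have h1 : MnS id (fun n => ind (Ed m W a) n - ind (fun n => Ed m W a n ∧ ∃ k, H k n) n) (ρ - ρ * δ) :=
      hLaw.all.sub hLaw.fin
    have e : (fun n => ind (Ed m W a) n - ind (fun n => Ed m W a n ∧ ∃ k, H k n) n) =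
        ind (fun n => InClass m W a n ∧ scaled n = ⊤) := by
      funext n
      by_cases hE : Ed m W a n
      · by_cases hn : ∃ k, H k n
        · rw [ind_pos hE, ind_pos (P := fun n => Ed m W a n ∧ ∃ k, H k n) ⟨hE, hn⟩, sub_self,
            ind_neg (P := fun n => InClass m W a n ∧ scaled n = ⊤) (fun h => (scaled_top_iff n).1 h.2 hn)]
        · rw [ind_pos hE, ind_neg (P := fun n => Ed m W a n ∧ ∃ k, H k n) (fun h => hn h.2), sub_zero,
            ind_pos (P := fun n => InClass m W a n ∧ scaled n = ⊤) ⟨(hcl n).2 hE, (scaled_top_iff n).2 hn⟩]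
      · rw [ind_neg hE, ind_neg (P := fun n => Ed m W a n ∧ ∃ k, H k n) (fun h => hE h.1), sub_zero,
          ind_neg (P := fun n => InClass m W a n ∧ scaled n = ⊤) (fun h => hE ((hcl n).1 h.1))]
    rw [e] at h1
    have e2 : ρ - ρ * δ = ρ * (1 - δ) := by ring
    rw [e2] at h1
    exact along_of h1 (fun _ => Iff.rfl)
  · intro r u v x hr
    have h1 := hA.law hρ0.le hρ1 hc0 (val := valK) (cls := clsK r u v) (A := 2 / Real.log (4 / 3)) (b := bK)
      (dd := fun x => δ * Pool.Agent.H499R2.ND.Phi x / r ^ 2) (by positivity) bK_pos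
      ((Pool.Agent.H499R2.ND.Phi_continuous.const_mul δ).div_const _) (hδ.lawK r u v hr) x
    have e : Pool.Agent.H499R2.ND.Phi x = Phi x := Pool.Agent.H499R2.ND.phi_cdf x
    simp only [e] at h1
    exact along_of h1 (fun n => and_congr (hcl n) (level_iff r u v x n))
  · intro h hh
    set M : ℝ := ‖BoundedContinuousFunction.mkOfCompact (⟨h, hh⟩ : C(ℝ≥0∞, ℝ))‖ with hM
    have hMb : ∀ t : ℝ≥0∞, |h t| ≤ M := fun t =>
      (BoundedContinuousFunction.mkOfCompact (⟨h, hh⟩ : C(ℝ≥0∞, ℝ))).norm_coe_le_norm t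
    have hM0 : 0 ≤ M := (abs_nonneg _).trans (hMb 0)
    have hcont : Continuous (fun t : ℝ => h (ENNReal.ofReal t)) := hh.comp ENNReal.continuous_ofReal
    have h1 := ps_cont (fun n => le_refl (id n)) bK_pos hLaw (h := fun t : ℝ => h (ENNReal.ofReal t)) (h1 := h ⊤)
      hcont.continuousAt (B := M) (fun _ => hMb _) (hMb _) (w := fun n => ind (Ed m W a) n * h (scaled n))
      (fun n k _ hE hk => by
        rw [ind_pos hE, one_mul, scaled_eq hk]
        rfl) (fun n _ hE hn => by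
        rw [ind_pos hE, one_mul, (scaled_top_iff n).2 hn]) (fun n => by
        rw [abs_mul]
        have e1 := ind_abs (Ed m W a) n
        calc |ind (Ed m W a) n| * |h (scaled n)| ≤ 1 * M := mul_le_mul e1 (hMb _) (abs_nonneg _) zero_le_one
          _ = M := one_mul M) (fun n _ hE => by
        rw [ind_neg hE, zero_mul])
    have e2 : ρ * δ * h (ENNReal.ofReal (2 / Real.log (4 / 3))) + (ρ - ρ * δ) * h ⊤ =
        ρ * (δ * h (ENNReal.ofReal (2 / Real.log (4 / 3))) + (1 - δ) * h ⊤) := by ring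
    rw [e2] at h1
    unfold MnS at h1
    refine h1.congr fun X => ?_
    rw [hset]
    rfl
  · intro N
    set ε : ℝ := (α - 2 / Real.log (4 / 3)) / 2 with hε
    have hε0 : 0 < ε := by rw [hε]; linarith
    set ε' : ℝ := min ε ((1 - α * g (1 / α)) / 2) with hε'
    have hαg : α * g (1 / α) < c / 2 := hα3
    have hε'0 : 0 < ε' := lt_min hε0 (by linarith)
    obtain ⟨X₀, hX₀⟩ := hld α hα2 hαg ε' hε'0
    have hexp : 0 < 1 - α * g (1 / α) - ε' := by
      have := min_le_right ε ((1 - α * g (1 / α)) / 2)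
      linarith
    have ht := (tendsto_rpow_atTop hexp).comp tendsto_natCast_atTop_atTop
    obtain ⟨X, hX1, hX2⟩ := ((ht.eventually_gt_atTop (N : ℝ)).and (eventually_ge_atTop X₀)).exists
    have h4 := hX₀ X hX2
    have h5 : (N : ℝ) < count (fun n => InClass m W a n ∧ ∃ t : ℕ, sigma n = t ∧ |(t : ℝ) / Real.log n - α| ≤ ε') X :=
      lt_of_lt_of_le hX1 h4
    unfold count at h5
    set S := {n : ℕ | 2 ≤ n ∧ n ≤ X ∧ InClass m W a n ∧ ∃ t : ℕ, sigma n = t ∧ |(t : ℝ) / Real.log n - α| ≤ ε'} with hS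
    have h6 : N < S.ncard := by exact_mod_cast h5
    have h7 : ∃ n ∈ S, N ≤ n := by
      by_contra hcon
      push Not at hcon
      have hsub : S ⊆ ((Finset.range N : Finset ℕ) : Set ℕ) := by
        intro n hn
        rw [Finset.mem_coe, Finset.mem_range]
        exact hcon n hn
      have := Set.ncard_le_ncard hsub (Finset.finite_toSet _)
      rw [Set.ncard_coe_finset, Finset.card_range] at this
      omega
    obtain ⟨n, ⟨hn2, _, hncl, t, ht1, ht2⟩, hnN⟩ := h7
    refine ⟨n, hnN, hncl, t, ht1, ?_⟩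
    have hl : 0 < Real.log (n : ℝ) := Real.log_pos (by exact_mod_cast hn2)
    have h8 := (abs_le.1 ht2).1
    have h9 := min_le_left ε ((1 - α * g (1 / α)) / 2)
    rw [← le_div_iff₀ hl]
    linarith

end Pool.Agent.Results.MP_f7abf1_nt.DigitClassesScaledTimes
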