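import Pool.Agent.Run7.h792.FL.Win
import Pool.Agent.Run7.h792.FL.Law
import Pool.Agent.Run7.h792.FL.Plain
import Pool.Agent.Run7.h439.DC.Dig

set_option autoImplicit false

/-!
# Scaled total stopping times and functions modulo large odd numbers

Fix `0 < ε < 1`. At the scale `N`, the scaled total stopping times of the `n ≤ N` are independent, with a
power saving which is uniform, of every function of `n` modulo an odd `q` between `N ^ ε` and
`N ^ (1 - ε)` whose Fourier coefficients at the nonzero frequencies are at most `q ^ (1 / 2 + η)`: primitive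
characters modulo `q`, quadratic phases, and the sets of residues modulo a prime `p` which are invariant
under multiplication by the `k`-th powers, `k + 1 ≤ p ^ (2 η)`. So each such set of residues, for example
the quadratic residues modulo a prime between `N ^ ε` and `N ^ (1 - ε)`, has at the scale `N` its
proportional share of every level set and window of `γ_∞`, of the large deviations near the mean value, and
of the set where `γ_∞ = ∞`.

Method: the dispersion argument of `Pool.Agent.Run7.h439.DC.Orth` at a level which is a small proportion of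
`log q`; the correlations of the function along the progressions modulo the powers of two are, up to `O(q)`,
autocorrelations over whole periods, and the sum of the squares of the latter is bounded by Parseval.
-/

namespace Pool.Agent.Results.MP_f7abf1_nt.FlatResidues

open Filter Topology ENNReal

/-- the `3x+1` function -/
def T (n : ℕ) : ℕ := if n % 2 = 0 then n / 2 else (3 * n + 1) / 2

/-- the total stopping time, the least `k` with `T^k(n) = 1`, and `⊤ = ∞` if there is none -/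
noncomputable def sigma (n : ℕ) : ℕ∞ := sInf {k : ℕ∞ | ∃ j : ℕ, T^[j] n = 1 ∧ k = j}

/-- the number of odd terms among `n, T n, ..., T^(k-1) n` -/
def odds (k n : ℕ) : ℕ := ((Finset.range k).filter fun i => T^[i] n % 2 = 1).card

/-- the number of odd terms of the trajectory before `1` is reached for the first time, and `0` if it is
never reached -/
noncomputable def oddTerms (n : ℕ) : ℕ := odds (sigma n).toNat n

/-- The scaled total stopping time `γ_∞(n) = σ_∞(n) / log n` in `[0, ∞]` (used for `n ≥ 2`). -/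
noncomputable def scaled (n : ℕ) : ℝ≥0∞ := (sigma n : ℝ≥0∞) / ENNReal.ofReal (Real.log n)

/-- `g(a) = sup_θ (θ a - log (½ (2^θ + (2/3)^θ)))`. -/
noncomputable def g (a : ℝ) : ℝ :=
  ⨆ θ : ℝ, (θ * a - Real.log ((1 / 2) * ((2 : ℝ) ^ θ + (2 / 3 : ℝ) ^ θ)))

/-- `f` has period `q`, values of modulus at most `1`, and its Fourier coefficients at the nonzero
frequencies have modulus at most `q ^ (1 / 2 + η)`. -/
structure Flat (q : ℕ) (η : ℝ) (f : ℕ → ℂ) : Prop where
  bounded : ∀ n, ‖f n‖ ≤ 1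
  periodic : ∀ n, f (n + q) = f n
  fourier : ∀ h : ℕ, 0 < h → h < q →
    ‖∑ a ∈ Finset.range q, f a * Complex.exp (2 * Real.pi * Complex.I * (h * a) / q)‖ ≤ (q : ℝ) ^ (1 / 2 + η)

/-- the mean value of a function with period `q` -/
noncomputable def mean (q : ℕ) (f : ℕ → ℂ) : ℂ := (∑ a ∈ Finset.range q, f a) / q

/-- `A` is a subset of `{0, ..., q - 1}`, and the indicator function of the integers which are congruent to
an element of `A` modulo `q` is `Flat`. -/
def FlatSet (q : ℕ) (η : ℝ) (A : Finset ℕ) : Prop :=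
  A ⊆ Finset.range q ∧ Flat q η (fun n => if n % q ∈ A then 1 else 0)

/-- `q` is odd and `N ^ ε ≤ q ≤ N ^ (1 - ε)`. -/
def InRange (ε : ℝ) (N q : ℕ) : Prop := Odd q ∧ (N : ℝ) ^ ε ≤ q ∧ (q : ℝ) ≤ (N : ℝ) ^ (1 - ε)

/-- the positive integers with the property `P` have the natural density `d` -/
def HasDensity (P : ℕ → Prop) (d : ℝ) : Prop :=
  Tendsto (fun N : ℕ => ({n : ℕ | 1 ≤ n ∧ n ≤ N ∧ P n}.ncard : ℝ) / N) atTop (𝓝 d)

/-- the number of the `n` with `2 ≤ n ≤ X` and the property `P` -/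
noncomputable def count (P : ℕ → Prop) (X : ℕ) : ℝ := ({n : ℕ | 2 ≤ n ∧ n ≤ X ∧ P n}.ncard : ℝ)

/-- `2 / log (4/3) * log n + x * log 3 * √(2 log n / (log (4/3))^3)` -/
noncomputable def bound (x : ℝ) (n : ℕ) : ℝ :=
  2 / Real.log (4 / 3) * Real.log n
    + x * (Real.log 3 * Real.sqrt (2 * Real.log n / Real.log (4 / 3) ^ 3))

/-- The distribution function of the standard normal law. -/
noncomputable def Phi (x : ℝ) : ℝ :=
  ProbabilityTheory.cdf (ProbabilityTheory.gaussianReal 0 1) x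

/-- The total stopping time of `n` is finite, at most `bound x n`, congruent to `u` modulo `r`, and the
number of odd terms of the trajectory before `1` is reached is congruent to `v` modulo `r`. -/
def Level (r : ℕ) (u v : ℤ) (x : ℝ) (n : ℕ) : Prop :=
  ∃ t : ℕ, sigma n = t ∧ (t : ℝ) ≤ bound x n ∧ (t : ℤ) ≡ u [ZMOD r] ∧ (odds t n : ℤ) ≡ v [ZMOD r]

open Pool.Agent.H499R2.HL Pool.Agent.Y965.PL Pool.Agent.Run7.h439.DC Pool.Agent.Run7.h792.FL

theorem T_eq : T = Pool.Agent.H499R2.ND.Tn := by funext a; rfl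

theorem sigma_eq {n k : ℕ} (h : H k n) : sigma n = k := by
  unfold sigma
  rw [T_eq]
  apply le_antisymm
  · exact sInf_le ⟨k, h.1, rfl⟩
  · refine le_sInf ?_
    rintro j ⟨i, hi, rfl⟩
    have : k ≤ i := by
      by_contra hlt
      exact h.2 i (by omega) hi
    exact_mod_cast this

theorem sigma_top {n : ℕ} (h : ¬ ∃ k, H k n) : sigma n = ⊤ := by
  unfold sigma
  rw [T_eq]
  have : {k : ℕ∞ | ∃ j : ℕ, Pool.Agent.H499R2.ND.Tn^[j] n = 1 ∧ k = j} = ∅ := by
    rw [Set.eq_empty_iff_forall_notMem]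
    rintro k ⟨j, hj, _⟩
    exact h (H_iff_ex.2 ⟨j, hj⟩)
  rw [this, sInf_empty]

theorem sigma_ne_top {n : ℕ} : sigma n ≠ ⊤ ↔ ∃ k, H k n := by
  constructor
  · intro h
    by_contra hcon
    exact h (sigma_top hcon)
  · rintro ⟨k, hk⟩
    rw [sigma_eq hk]
    exact ENat.natCast_ne_top k

theorem sigma_iff {n k : ℕ} : sigma n = k ↔ H k n := by
  constructor
  · intro h
    obtain ⟨k', hk'⟩ := sigma_ne_top.1 (show sigma n ≠ ⊤ by rw [h]; exact ENat.natCast_ne_top k)
    have h1 := sigma_eq hk'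
    rw [h] at h1
    have h2 : k = k' := by exact_mod_cast h1
    rw [h2]; exact hk'
  · exact sigma_eq

theorem level_iff (r : ℕ) (u v : ℤ) (x : ℝ) (n : ℕ) : Level r u v x n ↔
    Lv valK (clsK r u v) (th (2 / Real.log (4 / 3)) bK x) n := by
  unfold Level Lv valK clsK bK
  refine exists_congr fun k => ?_
  rw [th_eq, sigma_iff]
  exact Iff.rfl

theorem count_ind (P : ℕ → Prop) (X : ℕ) :
    ({n : ℕ | 1 ≤ n ∧ n ≤ X ∧ P n}.ncard : ℝ) = ∑ n ∈ Finset.Icc 1 X, ind P n := by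
  classical
  unfold ind
  rw [Finset.sum_boole]
  have e : {n : ℕ | 1 ≤ n ∧ n ≤ X ∧ P n} = ((Finset.Icc 1 X).filter fun n => P n : Finset ℕ) := by
    ext n
    simp only [Set.mem_ofPred_eq, Finset.coe_filter, Finset.mem_Icc, and_assoc]
  rw [e, Set.ncard_coe_finset]

theorem count_ind2 (P : ℕ → Prop) (X : ℕ) : count P X = ∑ n ∈ Finset.Icc 1 X, ind (fun n => 2 ≤ n ∧ P n) n := by
  unfold count
  rw [← count_ind]
  congr 2
  ext n
  simp only [Set.mem_ofPred_eq]
  constructor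
  · rintro ⟨h1, h2, h3⟩; exact ⟨by omega, h2, h1, h3⟩
  · rintro ⟨_, h2, h1, h3⟩; exact ⟨h1, h2, h3⟩

theorem scaled_top {n : ℕ} (h : sigma n = ⊤) : scaled n = ⊤ := by
  unfold scaled
  rw [h, ENat.toENNReal_top]
  exact ENNReal.top_div_of_ne_top ENNReal.ofReal_ne_top

theorem scaled_eq {n k : ℕ} (h : H k n) : scaled n = ENNReal.ofReal ((k : ℝ) / Real.log n) := by
  unfold scaled
  rw [sigma_eq h, ENat.toENNReal_coe, ← ENNReal.ofReal_natCast]
  rcases (Real.log_natCast_nonneg n).eq_or_lt with h0 | h0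
  · have hk : k = 0 := by
      rcases Nat.lt_trichotomy n 1 with h1 | h1 | h1
      · exfalso
        have hn : n = 0 := by omega
        subst hn
        have h2 : ∀ j : ℕ, Pool.Agent.H499R2.ND.Tn^[j] 0 = 0 := by
          intro j
          induction j with
          | zero => rfl
          | succ j ih => rw [Function.iterate_succ_apply', ih]; rfl
        have := h.1
        rw [h2] at this
        omega
      · subst h1
        by_contra hk
        exact h.2 0 (by omega) rfl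
      · exfalso
        have : 0 < Real.log (n : ℝ) := Real.log_pos (by exact_mod_cast h1)
        linarith
    subst hk
    simp
  · rw [ENNReal.ofReal_div_of_pos h0]

theorem scaled_top_iff (n : ℕ) : scaled n = ⊤ ↔ ¬ ∃ k, H k n := by
  constructor
  · rintro hs ⟨k, hk⟩
    rw [scaled_eq hk] at hs
    exact ENNReal.ofReal_ne_top hs
  · intro hn
    exact scaled_top (sigma_top hn)

theorem win_iff' {g1 g2 : ℝ} (h1 : 0 ≤ g1) (h2 : g1 ≤ g2) (n : ℕ) :
    (2 ≤ n ∧ ENNReal.ofReal g1 ≤ scaled n ∧ scaled n ≤ ENNReal.ofReal g2) ↔ Win g1 g2 2 n := by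
  unfold Win
  apply and_congr_right
  intro hn
  have hl : 0 < Real.log (n : ℝ) := Real.log_pos (by exact_mod_cast hn)
  constructor
  · rintro ⟨h3, h4⟩
    have h5 : ∃ k, H k n := by
      by_contra hcon
      rw [(scaled_top_iff n).2 hcon] at h4
      exact ENNReal.ofReal_ne_top (top_le_iff.1 h4)
    obtain ⟨k, hk⟩ := h5
    rw [scaled_eq hk, ENNReal.ofReal_le_ofReal_iff (by positivity), le_div_iff₀ hl] at h3
    rw [scaled_eq hk, ENNReal.ofReal_le_ofReal_iff (by linarith), div_le_iff₀ hl] at h4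
    exact ⟨k, hk, h3, h4⟩
  · rintro ⟨k, hk, h3, h4⟩
    rw [scaled_eq hk, ENNReal.ofReal_le_ofReal_iff (by positivity), ENNReal.ofReal_le_ofReal_iff (by linarith),
      le_div_iff₀ hl, div_le_iff₀ hl]
    exact ⟨h3, h4⟩

theorem big_iff {x : ℝ} (n : ℕ) : (2 ≤ n ∧ ENNReal.ofReal x ≤ scaled n) ↔ Big x 2 n := by
  unfold Big
  apply and_congr_right
  intro hn
  have hl : 0 < Real.log (n : ℝ) := Real.log_pos (by exact_mod_cast hn)
  constructor
  · rintro h3 ⟨k, hk, h4⟩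
    rw [scaled_eq hk, ENNReal.ofReal_le_ofReal_iff (by positivity), le_div_iff₀ hl] at h3
    linarith
  · intro h3
    by_cases h5 : ∃ k, H k n
    · obtain ⟨k, hk⟩ := h5
      rw [scaled_eq hk, ENNReal.ofReal_le_ofReal_iff (by positivity), le_div_iff₀ hl]
      by_contra hcon
      exact h3 ⟨k, hk, not_le.1 hcon⟩
    · rw [(scaled_top_iff n).2 h5]; exact le_top

/-- SCALED TOTAL STOPPING TIMES AND FUNCTIONS MODULO LARGE ODD NUMBERS. The positive integers with finite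
total stopping time have a positive natural density `δ`, and `δ = 1` if and only if all are of this kind.
For every `0 < ε < 1` there are `η`, `c`, `K > 0` with the following properties; `N ≥ 1`, and `q` is odd with
`N ^ ε ≤ q ≤ N ^ (1 - ε)`.

(1) (Uniform transfer.) For every `f` with period `q` and modulus at most `1` whose Fourier coefficients at
the nonzero frequencies are at most `q ^ (1 / 2 + η)`, for every function `φ` of two variables, bounded by
`1`, and all `X ≤ N` the sum over the `n ≤ X` of `φ` (total stopping time, number of odd terms) times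
`f(n)` minus the mean value of `f` has modulus at most `K N ^ (1 - c)`.

(2) For every flat set `A` of residues modulo `q` and all `0 ≤ g₁ ≤ g₂`, `X ≤ N` the number of the
`2 ≤ n ≤ X` in the classes of `A` with `g₁ ≤ γ_∞(n) ≤ g₂` is `|A| / q` times the number of all such `n`, up
to `K (g₂ + 1) N ^ (1 - c)`; and the same for the condition `γ_∞(n) ≥ g₂`, infinite values included.

(3) Let `0 ≤ v < c` and `τ > 0`. For all large `N`, all `q` and all flat `A` with `|A| ≥ q N ^ (-v)` the number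
of the `n ≤ N` in the classes of `A` with `γ_∞(n) = ∞` is `(1 - δ) |A| / q * N` up to `τ |A| / q * N`.

(4) In the same way the `n ≤ N` in the classes of `A` for which `σ_∞(n)` is finite, `≡ a` modulo `r` and at
most `bound x`, and for which the number of odd terms is `≡ b` modulo `r`, are
`δ Phi(x) / r ^ 2 * |A| / q * N` in number up to `τ |A| / q * N`.

(5) (Large deviations near the mean.) If `α > 1 / log 2` and `v + α g(1/α) < c`, then for every `ε' > 0`,
all large `N`, all `q` and all flat `A` with `|A| ≥ q N ^ (-v)` at least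
`|A| / q * N ^ (1 - α g(1/α) - ε')` of the `2 ≤ n ≤ N` in the classes of `A` satisfy
`|σ_∞(n) / log n - α| ≤ ε'`.

(6) (Sufficient sets.) If for some `0 ≤ v < c` and infinitely many `N` there are `q` and a flat `A` with
`|A| ≥ q N ^ (-v)` such that `γ_∞(n)` is finite for all `n ≤ N` in the classes of `A`, then `γ_∞(n)` is
finite for all `n`.

(7) (Examples.) The hypothesis on `f` holds for the primitive Dirichlet characters modulo `q`, for
`exp (2 π i (a n ^ 2 + b n) / q)` with `a` coprime to `q`, and the hypothesis on `A` holds if `q = p` is prime and `A`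
is invariant under multiplication by the `k`-th powers coprime to `p`, where `k + 1 ≤ p ^ (2 η)`. -/
theorem result : ∃ δ : ℝ, 0 < δ ∧ δ ≤ 1 ∧ (δ = 1 ↔ ∀ n : ℕ, 1 ≤ n → sigma n ≠ ⊤) ∧
    HasDensity (fun n => sigma n ≠ ⊤) δ ∧
    ∀ ε : ℝ, 0 < ε → ε < 1 → ∃ η c K : ℝ, 0 < η ∧ 0 < c ∧ c < 1 ∧ 0 < K ∧
    (∀ N q : ℕ, 1 ≤ N → InRange ε N q → ∀ f : ℕ → ℂ, Flat q η f →
      ∀ φ : ℕ∞ → ℕ → ℝ, (∀ t o, |φ t o| ≤ 1) → ∀ X : ℕ, X ≤ N →
      ‖∑ n ∈ Finset.Icc 1 X, (φ (sigma n) (oddTerms n) : ℂ) * (f n - mean q f)‖ ≤ K * (N : ℝ) ^ (1 - c)) ∧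
    (∀ N q : ℕ, 1 ≤ N → InRange ε N q → ∀ A : Finset ℕ, FlatSet q η A →
      ∀ g₁ g₂ : ℝ, 0 ≤ g₁ → g₁ ≤ g₂ → ∀ X : ℕ, X ≤ N →
      |count (fun n => n % q ∈ A ∧ ENNReal.ofReal g₁ ≤ scaled n ∧ scaled n ≤ ENNReal.ofReal g₂) X -
        (A.card / q : ℝ) * count (fun n => ENNReal.ofReal g₁ ≤ scaled n ∧ scaled n ≤ ENNReal.ofReal g₂) X| ≤
        K * (g₂ + 1) * (N : ℝ) ^ (1 - c) ∧
      |count (fun n => n % q ∈ A ∧ ENNReal.ofReal g₂ ≤ scaled n) X -
        (A.card / q : ℝ) * count (fun n => ENNReal.ofReal g₂ ≤ scaled n) X| ≤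
        K * (g₂ + 1) * (N : ℝ) ^ (1 - c)) ∧
    (∀ v : ℝ, 0 ≤ v → v < c → ∀ τ : ℝ, 0 < τ → ∃ N₀ : ℕ, ∀ N : ℕ, N₀ ≤ N → ∀ q : ℕ, InRange ε N q →
      ∀ A : Finset ℕ, FlatSet q η A → (q : ℝ) * (N : ℝ) ^ (-v) ≤ A.card →
      |({n : ℕ | 1 ≤ n ∧ n ≤ N ∧ n % q ∈ A ∧ scaled n = ⊤}.ncard : ℝ) - (1 - δ) * (A.card / q * N)| ≤
        τ * (A.card / q * N)) ∧
    (∀ (r : ℕ) (a b : ℤ) (x : ℝ), 1 ≤ r → ∀ v : ℝ, 0 ≤ v → v < c → ∀ τ : ℝ, 0 < τ → ∃ N₀ : ℕ, ∀ N : ℕ, N₀ ≤ N →
      ∀ q : ℕ, InRange ε N q → ∀ A : Finset ℕ, FlatSet q η A → (q : ℝ) * (N : ℝ) ^ (-v) ≤ A.card →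
      |({n : ℕ | 1 ≤ n ∧ n ≤ N ∧ n % q ∈ A ∧ Level r a b x n}.ncard : ℝ) - δ * Phi x / r ^ 2 * (A.card / q * N)| ≤
        τ * (A.card / q * N)) ∧
    (∀ α v : ℝ, 1 / Real.log 2 < α → 0 ≤ v → v + α * g (1 / α) < c → ∀ ε' : ℝ, 0 < ε' →
      ∃ N₀ : ℕ, ∀ N : ℕ, N₀ ≤ N → ∀ q : ℕ, InRange ε N q → ∀ A : Finset ℕ, FlatSet q η A →
      (q : ℝ) * (N : ℝ) ^ (-v) ≤ A.card →
      A.card / q * (N : ℝ) ^ (1 - α * g (1 / α) - ε') ≤
        count (fun n => n % q ∈ A ∧ ∃ t : ℕ, sigma n = t ∧ |(t : ℝ) / Real.log n - α| ≤ ε') N) ∧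
    (∀ v : ℝ, 0 ≤ v → v < c → (∃ᶠ N : ℕ in atTop, ∃ q : ℕ, InRange ε N q ∧ ∃ A : Finset ℕ, FlatSet q η A ∧
      (q : ℝ) * (N : ℝ) ^ (-v) ≤ A.card ∧ ∀ n : ℕ, 1 ≤ n → n ≤ N → n % q ∈ A → scaled n ≠ ⊤) →
      ∀ n : ℕ, 1 ≤ n → scaled n ≠ ⊤) ∧
    (∀ (q : ℕ) (χ : DirichletCharacter ℂ q), 1 ≤ q → χ.IsPrimitive → Flat q η (fun n => χ n)) ∧
    (∀ (q : ℕ) (a b : ℤ), Odd q → IsCoprime a q →
      Flat q η (fun n => Complex.exp (2 * Real.pi * Complex.I * (a * n ^ 2 + b * n) / q))) ∧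
    (∀ p k : ℕ, p.Prime → 1 ≤ k → (k : ℝ) + 1 ≤ (p : ℝ) ^ (2 * η) → ∀ A : Finset ℕ, A ⊆ Finset.range p →
      (∀ b : ℕ, Nat.Coprime b p → ∀ a ∈ A, b ^ k * a % p ∈ A) → FlatSet p η A) := by
  classical
  obtain ⟨δ, hδ, h2, h3⟩ := nat1
  have h2' : δ = 1 ↔ ∀ n : ℕ, 1 ≤ n → sigma n ≠ ⊤ := by
    rw [h2]
    refine forall₂_congr fun n _ => ?_
    rw [sigma_ne_top, H_iff_ex]
  refine ⟨δ, hδ.pos, hδ.le, h2', ?_, fun ε hε hε1 => ?_⟩
  · have h4 : Pool.Agent.H499R2.ND.Dn (fun n => sigma n ≠ ⊤) δ :=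
      Pool.Agent.H499R2.LT.Dn_iff (fun n _ => by rw [sigma_ne_top, H_iff_ex]) h3
    exact h4
  obtain ⟨η, c, C, hη, hc0, hc1, hC, S⟩ := tsa hε hε1
  have hFl : ∀ {q : ℕ} {f : ℕ → ℂ}, Flat q η f → FlatP q η f := fun h => ⟨h.1, h.2, h.3⟩
  have hlF : ∀ {q : ℕ} {f : ℕ → ℂ}, FlatP q η f → Flat q η f := fun h => ⟨h.1, h.2, h.3⟩
  have hFs : ∀ {q : ℕ} {A : Finset ℕ}, FlatSet q η A → FlatI q η A := fun h => ⟨h.1, hFl h.2⟩
  set K : ℝ := 4 * C * (1 + 2 / c) + C + 1 with hK
  have hKa : C ≤ K := by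
    rw [hK]
    have : 0 ≤ 4 * C * (1 + 2 / c) := by positivity
    linarith
  have hKb : 4 * C * (1 + 2 / c) ≤ K := by rw [hK]; linarith
  have hK0 : 0 < K := by rw [hK]; positivity
  have hcnt : ∀ (E P Q : ℕ → Prop) (X : ℕ), (∀ n, (2 ≤ n ∧ P n) ↔ Q n) → count (fun n => E n ∧ P n) X =
      ∑ n ∈ Finset.Icc 1 X, ind E n * ind Q n := by
    intro E P Q X hPQ
    rw [count_ind2]
    apply Finset.sum_congr rfl
    intro n _
    rw [← ind_and]
    apply ind_congr
    rw [← hPQ]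
    tauto
  have hcnt' : ∀ (P Q : ℕ → Prop) (X : ℕ), (∀ n, (2 ≤ n ∧ P n) ↔ Q n) → count P X =
      ∑ n ∈ Finset.Icc 1 X, ind Q n := by
    intro P Q X hPQ
    rw [count_ind2]
    apply Finset.sum_congr rfl
    intro n _
    exact ind_congr (hPQ n)
  have hcnt1 : ∀ (E P Q : ℕ → Prop) (X : ℕ), (∀ n, P n ↔ Q n) → ({n : ℕ | 1 ≤ n ∧ n ≤ X ∧ E n ∧ P n}.ncard : ℝ) =
      ∑ n ∈ Finset.Icc 1 X, ind E n * ind Q n := by
    intro E P Q X hPQ
    rw [count_ind (fun n => E n ∧ P n)]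
    apply Finset.sum_congr rfl
    intro n _
    rw [← ind_and]
    exact ind_congr (and_congr_right fun _ => hPQ n)
  have hrho : ∀ {N q : ℕ} {A : Finset ℕ} {v : ℝ}, Odd q → (q : ℝ) * (N : ℝ) ^ (-v) ≤ A.card → (N : ℝ) ^ (-v) ≤ (A.card / q : ℝ) := by
    intro N q A v hq h
    have hq0 : 0 < q := hq.pos
    have hqr : (0 : ℝ) < q := by exact_mod_cast hq0
    rw [le_div_iff₀ hqr]
    linarith
  have hrho1 : ∀ {q : ℕ} {A : Finset ℕ}, Odd q → A ⊆ Finset.range q → (A.card / q : ℝ) ≤ 1 := by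
    intro q A hq hA
    have hq0 : 0 < q := hq.pos
    have hqr : (0 : ℝ) < q := by exact_mod_cast hq0
    rw [div_le_one hqr]
    have := Finset.card_le_card hA
    rw [Finset.card_range] at this
    exact_mod_cast this
  have hcc : c / 2 < c := by linarith
  -- the infinite values
  have hinf : ∀ v : ℝ, 0 ≤ v → v < c → ∀ τ : ℝ, 0 < τ → ∃ N₀ : ℕ, ∀ N : ℕ, N₀ ≤ N → ∀ q : ℕ, InRange ε N q →
      ∀ A : Finset ℕ, FlatSet q η A → (q : ℝ) * (N : ℝ) ^ (-v) ≤ A.card →
      |({n : ℕ | 1 ≤ n ∧ n ≤ N ∧ n % q ∈ A ∧ scaled n = ⊤}.ncard : ℝ) - (1 - δ) * (A.card / q * N)| ≤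
        τ * (A.card / q * N) := by
    intro v hv0 hv τ hτ
    have hMn : Mn (Fg (fun _ _ => 0) 1) (1 - δ) := Mn_inf hδ.fin
    have hd := dens hMn (C := C) hv hτ
    obtain ⟨N₀, hN₀⟩ := hd.exists_forall_of_atTop
    refine ⟨max N₀ 1, fun N hN q hq A hA hcard => ?_⟩
    have h5 := hN₀ N ((le_max_left _ _).trans hN) (fun n => n % q ∈ A) (A.card / q) (hrho hq.1 hcard)
      (((S.set ((le_max_right _ _).trans hN) hq.1 hq.2.1 hq.2.2 (hFs hA)).1).fg (by simp) (by simp))
    rw [hcnt1 (fun n => n % q ∈ A) (fun n => scaled n = ⊤) (fun n => ¬ ∃ k, H k n) N scaled_top_iff]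
    refine le_trans (le_of_eq ?_) h5
    congr 2
    apply Finset.sum_congr rfl
    intro n _
    congr 1
    by_cases hn : ∃ k, H k n
    · rw [ind_neg (fun h => h hn)]
      obtain ⟨k, hk⟩ := hn
      rw [Fg_H hk]
    · rw [ind_pos hn, Fg_not hn]
  refine ⟨η, c / 2, K, hη, by linarith, by linarith, hK0, ?_, ?_, ?_, ?_, ?_, ?_, ?_, ?_, ?_⟩
  · intro N q hN hq f hf φ hφ X hX
    have h1 := async_Fg (g := fun k o => φ k o) (g0 := φ ⊤ 0) (fun _ _ => hφ _ _) (hφ _ _)
    have h4 := (S.fun hN hq.1 hq.2.1 hq.2.2 (hFl hf) h1 hX).1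
    have e : ∀ n, Fg (fun k o => φ k o) (φ ⊤ 0) n = φ (sigma n) (oddTerms n) := by
      intro n
      by_cases h : ∃ k, H k n
      · obtain ⟨k, hk⟩ := h
        rw [Fg_H hk]
        unfold oddTerms
        rw [sigma_eq hk, ENat.toNat_natCast]
        rfl
      · rw [Fg_not h]
        unfold oddTerms
        rw [sigma_top h, ENat.toNat_top]
        rfl
    simp only [Int.toNat_natCast, e] at h4
    refine h4.trans ?_
    have hXR : (1 : ℝ) ≤ N := by exact_mod_cast hN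
    have h5 : (N : ℝ) ^ (1 - c) ≤ (N : ℝ) ^ (1 - c / 2) := Real.rpow_le_rpow_of_exponent_le hXR (by linarith)
    exact mul_le_mul hKa h5 (by positivity) (hC.trans hKa)
  · intro N q hN hq A hA g₁ g₂ hg1 hg X hX
    have hT := (S.set hN hq.1 hq.2.1 hq.2.2 (hFs hA)).1
    have hg2 : 0 ≤ g₂ := hg1.trans hg
    have hb : 4 * C * (1 + 2 / c) * (g₂ + 1) * (N : ℝ) ^ (1 - c / 2) ≤ K * (g₂ + 1) * (N : ℝ) ^ (1 - c / 2) := by
      gcongr
    constructor
    · rw [hcnt _ _ (Win g₁ g₂ 2) X (win_iff' hg1 hg), hcnt' _ (Win g₁ g₂ 2) X (win_iff' hg1 hg)]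
      exact (hT.win hC hc0 2 hg1 hg hN hX).trans hb
    · rw [hcnt _ _ (Big g₂ 2) X big_iff, hcnt' _ (Big g₂ 2) X big_iff]
      exact (hT.big hC hc0 2 hg2 hN hX).trans hb
  · intro v hv0 hv τ hτ
    exact hinf v hv0 (by linarith) τ hτ
  · intro r a b x hr v hv0 hv τ hτ
    have hν : (0 : ℝ) < 2 / Real.log (4 / 3) := div_pos (by norm_num) nu_pos'
    have h5 := hδ.lawK r a b hr x
    have e : ind (fun n => True ∧ Lv valK (clsK r a b) (th (2 / Real.log (4 / 3)) bK x) n) =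
        ind (Lv (fun k o => (((fun k _ => k) k o : ℕ) : ℝ)) (clsK r a b) (th (2 / Real.log (4 / 3)) bK x)) := by
      funext n
      apply ind_congr
      rw [true_and]
      exact Iff.rfl
    rw [e] at h5
    have h6 := law (V := fun k _ => k) hν h5 hC (show v < c by linarith) hc1.le hτ
    obtain ⟨N₀, hN₀⟩ := h6.exists_forall_of_atTop
    refine ⟨max N₀ 1, fun N hN q hq A hA hcard => ?_⟩
    have h7 := hN₀ N ((le_max_left _ _).trans hN) (fun n => n % q ∈ A) (A.card / q) (hrho hq.1 hcard) (hrho1 hq.1 hA.1)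
      ((S.set ((le_max_right _ _).trans hN) hq.1 hq.2.1 hq.2.2 (hFs hA)).1)
    have e2 : Pool.Agent.H499R2.ND.Phi x = Phi x := Pool.Agent.H499R2.ND.phi_cdf x
    rw [e2] at h7
    rw [hcnt1 (fun n => n % q ∈ A) (fun n => Level r a b x n)
      (Lv (fun k o => (((fun k _ => k) k o : ℕ) : ℝ)) (clsK r a b) (th (2 / Real.log (4 / 3)) bK x)) N
      (fun n => level_iff r a b x n)]
    exact h7
  · intro α v hα hv0 hv ε' hε'
    obtain ⟨N₀, hN₀⟩ := ld hC hc0 hc1.le hα hv0 hv hε'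
    refine ⟨max N₀ 1, fun N hN q hq A hA hcard => ?_⟩
    have h5 := hN₀ N ((le_max_left _ _).trans hN) (fun n => n % q ∈ A) (A.card / q) (hrho hq.1 hcard)
      ((S.set ((le_max_right _ _).trans hN) hq.1 hq.2.1 hq.2.2 (hFs hA)).1)
    refine h5.trans (le_of_eq ?_)
    rw [hcnt _ _ (Win (α - ε') (α + ε') 2) N]
    intro n
    unfold Win
    apply and_congr_right
    intro hn
    have hl : 0 < Real.log (n : ℝ) := Real.log_pos (by exact_mod_cast hn)
    refine exists_congr fun t => ?_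
    rw [sigma_iff]
    apply and_congr_right
    intro _
    rw [abs_le]
    constructor
    · rintro ⟨h5, h6⟩
      have h7 : α - ε' ≤ t / Real.log n := by linarith
      have h8 : t / Real.log n ≤ α + ε' := by linarith
      rw [le_div_iff₀ hl] at h7
      rw [div_le_iff₀ hl] at h8
      exact ⟨h7, h8⟩
    · rintro ⟨h5, h6⟩
      rw [← le_div_iff₀ hl] at h5
      rw [← div_le_iff₀ hl] at h6
      constructor <;> linarith
  · intro v hv0 hv hfreq
    have hδ1 : δ = 1 := by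
      by_contra hne
      have hlt : δ < 1 := lt_of_le_of_ne hδ.le hne
      obtain ⟨N₀, hN₀⟩ := hinf v hv0 (by linarith) ((1 - δ) / 2) (by linarith)
      obtain ⟨N, ⟨q, hq, A, hA, hcard, hfin⟩, hN⟩ := (hfreq.and_eventually (eventually_ge_atTop (max N₀ 1))).exists
      have h5 := hN₀ N ((le_max_left _ _).trans hN) q hq A hA hcard
      have hempty : {n : ℕ | 1 ≤ n ∧ n ≤ N ∧ n % q ∈ A ∧ scaled n = ⊤} = ∅ := by
        rw [Set.eq_empty_iff_forall_notMem]
        rintro n ⟨a1, a2, a3, a4⟩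
        exact hfin n a1 a2 a3 a4
      rw [hempty, Set.ncard_empty] at h5
      have hN1 : (1 : ℝ) ≤ N := by exact_mod_cast (le_max_right _ _).trans hN
      have hρ := hrho (v := v) hq.1 hcard
      have hρ0 : 0 < (A.card / q : ℝ) := lt_of_lt_of_le (by positivity) hρ
      have h6 : 0 < (A.card / q : ℝ) * N := by positivity
      have h7 := (abs_le.1 h5).1
      push_cast at h7
      nlinarith
    have h5 := h2'.1 hδ1
    intro n hn hs
    exact h5 n hn ((sigma_top ((scaled_top_iff n).1 hs)))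
  · intro q χ hq hχ
    exact hlF (flatP_char hq hη.le hχ)
  · intro q a b hq hab
    exact hlF (flatP_quad hη.le hq hab b)
  · intro p k hp hk hkp A hA h
    have h5 := flatI_pow hp hk hkp hA h
    exact ⟨h5.1, hlF h5.2⟩

end Pool.Agent.Results.MP_f7abf1_nt.FlatResidues
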