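import Mathlib
import Pool.Agent.Run7.h145.QL.L2
import Pool.Agent.Run7.h145.QL.X

set_option autoImplicit false

/-!
The limit law of the scaled total stopping times of the `3x+1` function along the values of quadratic
polynomials in several variables.

The values (for example the sums of two squares) have density zero or large multiplicities; all statements
count the points of a box at which the value has the property.
-/

namespace Pool.Agent.Results.MP_f7abf1_nt.QuadraticValues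

open Filter Topology Finset

/-- the `3x+1` function -/
def T (n : ℕ) : ℕ := if n % 2 = 0 then n / 2 else (3 * n + 1) / 2

/-- `t` is the total stopping time of `n` -/
def IsTotalStoppingTime (n t : ℕ) : Prop := T^[t] n = 1 ∧ ∀ j < t, T^[j] n ≠ 1

/-- the number of odd terms among `n, T n, ..., T^(k-1) n` -/
def odds (k n : ℕ) : ℕ := ((Finset.range k).filter fun i => T^[i] n % 2 = 1).card

/-- the positive integers with the property `P` have the natural density `δ` -/
def HasDensity (P : ℕ → Prop) (δ : ℝ) : Prop :=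
  Tendsto (fun N : ℕ => ({n : ℕ | 1 ≤ n ∧ n ≤ N ∧ P n}.ncard : ℝ) / N) atTop (𝓝 δ)

/-- `(½ log (4/3))⁻¹ + x * log 3 * √(2 / ((log (4/3))^3 log n))` -/
noncomputable def bound (x : ℝ) (n : ℕ) : ℝ :=
  (1 / 2 * Real.log (4 / 3))⁻¹ + x * (Real.log 3 * Real.sqrt (2 / (Real.log (4 / 3) ^ 3 * Real.log n)))

/-- The distribution function of the standard normal law. -/
noncomputable def Phi (x : ℝ) : ℝ :=
  ProbabilityTheory.cdf (ProbabilityTheory.gaussianReal 0 1) x

/-- The total stopping time of `n` is finite and `≡ a` modulo `m`, the number of odd terms before `1`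
is `≡ b` modulo `m`, and the scaled total stopping time is at most `bound x n`. -/
def Level (m : ℕ) (a b : ℤ) (x : ℝ) (n : ℕ) : Prop :=
  ∃ t : ℕ, (t : ℝ) / Real.log n ≤ bound x n ∧ IsTotalStoppingTime n t ∧
    (t : ℤ) ≡ a [ZMOD m] ∧ (odds t n : ℤ) ≡ b [ZMOD m]

/-- The value at `x` of the quadratic polynomial with quadratic part `∑ A i j x i x j`, linear part
`∑ l i x i` and constant term `c`. -/
def Val {k : ℕ} (A : Fin k → Fin k → ℤ) (l : Fin k → ℤ) (c : ℤ) (x : Fin k → ℤ) : ℤ :=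
  ∑ i, ∑ j, A i j * x i * x j + ∑ i, l i * x i + c

/-- The quadratic form `∑ A i j x i x j` has rank at least two: the symmetric matrix
`A i j + A j i` has a minor of order two that is not zero. -/
def RankTwo {k : ℕ} (A : Fin k → Fin k → ℤ) : Prop :=
  ∃ p q r s : Fin k, (A p r + A r p) * (A q s + A s q) ≠ (A p s + A s p) * (A q r + A r q)

/-- The integral points `x` of the box `a i < x i ≤ b i` with `x ∈ D` at which the polynomial has a
positive value with `u < value ≤ v`. -/
def Points {k : ℕ} (A : Fin k → Fin k → ℤ) (l : Fin k → ℤ) (c : ℤ) (a b : Fin k → ℤ) (u v : ℤ)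
    (D : Set (Fin k → ℤ)) : Set (Fin k → ℤ) :=
  {x | (∀ i, a i < x i ∧ x i ≤ b i) ∧ (u < Val A l c x ∧ Val A l c x ≤ v) ∧ 0 < Val A l c x ∧ x ∈ D}

/-- THE FREQUENCY of the property `P` of positive integers along quadratic polynomials is `f`: for every
integral quadratic form `A` of rank at least two in `k` variables, all `B, ε > 0` and `q ≥ 1` there is
`R₀` such that for all `R ≥ R₀`, for all polynomials with quadratic part `A`, linear coefficients at most
`B R` and constant term at most `B R ^ 2`, all boxes in `[-R, R] ^ k`, all `u`, `v` and all sets `D` of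
integral points periodic modulo `q`, the number of the points `x ∈ D` of the box with a positive value
between `u` and `v` that has the property `P` is `f` times the number of all points `x ∈ D` of the box
with a positive value between `u` and `v`, up to `ε R ^ k`. -/
def Frequency (P : ℕ → Prop) (f : ℝ) : Prop := ∀ (k : ℕ) (A : Fin k → Fin k → ℤ), RankTwo A →
  ∀ (B ε : ℝ) (q : ℕ), 0 < B → 0 < ε → 1 ≤ q → ∃ R₀ : ℕ, ∀ R : ℕ, R₀ ≤ R →
  ∀ (l : Fin k → ℤ) (c : ℤ) (a b : Fin k → ℤ), (∀ i, |(l i : ℝ)| ≤ B * R) → |(c : ℝ)| ≤ B * R ^ 2 →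
  (∀ i, |a i| ≤ R ∧ |b i| ≤ R) → ∀ (u v : ℤ) (D : Set (Fin k → ℤ)),
  (∀ x y : Fin k → ℤ, (∀ i, x i ≡ y i [ZMOD q]) → (x ∈ D ↔ y ∈ D)) →
  |({x ∈ Points A l c a b u v D | P (Val A l c x).toNat}.ncard : ℝ) - f * (Points A l c a b u v D).ncard| ≤ ε * R ^ k

theorem freq_of {P : ℕ → Prop} {f : ℝ} (h : Pool.Agent.Run7.h145.QL.QV.Fr P f) : Frequency P f :=
  Pool.Agent.Run7.h145.QL.X.of_fr h

theorem bound_iff (x : ℝ) {n : ℕ} (hn : 1 < n) (t : ℕ) :
    (t : ℝ) / Real.log n ≤ bound x n ↔ (t : ℝ) ≤ 2 / Real.log (4 / 3) * Real.log n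
      + x * (Real.log 3 * Real.sqrt (2 * Real.log n / Real.log (4 / 3) ^ 3)) := by
  have hL : 0 < Real.log n := Real.log_pos (by exact_mod_cast hn)
  have hnu : 0 < Real.log (4 / 3) := Real.log_pos (by norm_num)
  rw [div_le_iff₀ hL]
  have e : bound x n * Real.log n = 2 / Real.log (4 / 3) * Real.log n
      + x * (Real.log 3 * Real.sqrt (2 * Real.log n / Real.log (4 / 3) ^ 3)) := by
    unfold bound
    have h1 : Real.sqrt (2 * Real.log n / Real.log (4 / 3) ^ 3)
        = Real.sqrt (2 / (Real.log (4 / 3) ^ 3 * Real.log n)) * Real.log n := by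
      have h2 : 2 * Real.log n / Real.log (4 / 3) ^ 3
          = 2 / (Real.log (4 / 3) ^ 3 * Real.log n) * Real.log n ^ 2 := by field_simp
      rw [h2, Real.sqrt_mul (by positivity), Real.sqrt_sq hL.le]
    rw [h1, add_mul]
    congr 1
    · field_simp
    · ring
  rw [e]

/-- THE LIMIT LAW OF THE SCALED TOTAL STOPPING TIMES ALONG QUADRATIC POLYNOMIALS.
Let `δ > 0` be the natural density of the positive integers with finite total stopping time (`δ = 1`
if and only if all are of this kind). In the sense of `Frequency` (positive values of quadratic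
polynomials with quadratic part of rank at least two, at the points of boxes and of sets periodic modulo
`q`, uniformly in the lower coefficients, the box, the range of values and the periodic set):
(1) the `n` with infinite total stopping time have frequency `1 - δ`;
(2) the `n` with finite total stopping time `≡ a` and number of odd terms before `1` `≡ b` modulo `m`,
and scaled total stopping time at most `(½ log (4/3))⁻¹ + x log 3 √(2 / ((log (4/3))^3 log n))`, have
frequency `δ Φ(x) / m²`, `Φ` the standard normal distribution function; without the last condition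
the frequency is `δ / m²`;
(3) for every `η > 0` the `n` with scaled total stopping time within `η` of `2 / log (4/3)` have
frequency `δ`.
(4) Let the property `P` have the frequency `f` along quadratic polynomials. Then
 (a) for every quadratic polynomial in `k` variables with quadratic part of rank at least two that takes
     a positive value, `P` holds at the proportion `f` of the points of the cubes `[-N, N] ^ k` at which
     the value is positive;
 (b) `P (x ^ 2 + y ^ 2)` holds for the proportion `f` of the integral points with `0 < x ^ 2 + y ^ 2 ≤ N`;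
 (c) `P (x y)` holds for the proportion `f` of the pairs `1 ≤ x, y ≤ N`;
 (d) if `f > 0` and `β ^ 2 ≠ 4 α γ`, every large `n` has at least `κ n` representations
     `n = α x ^ 2 + β x y + γ y ^ 2 + t` with positive `x`, `y` at most `√n` and `t` with the property `P`. -/
theorem result : ∃ δ : ℝ, 0 < δ ∧ δ ≤ 1 ∧ (δ = 1 ↔ ∀ n : ℕ, 1 ≤ n → ∃ t, IsTotalStoppingTime n t) ∧
    HasDensity (fun n => ∃ t, IsTotalStoppingTime n t) δ ∧
    Frequency (fun n => ¬ ∃ t, IsTotalStoppingTime n t) (1 - δ) ∧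
    (∀ (m : ℕ) (a b : ℤ), 1 ≤ m →
      (∀ x : ℝ, Frequency (Level m a b x) (δ * Phi x / m ^ 2)) ∧
      Frequency (fun n => ∃ t : ℕ, IsTotalStoppingTime n t ∧ (t : ℤ) ≡ a [ZMOD m] ∧
        (odds t n : ℤ) ≡ b [ZMOD m]) (δ / m ^ 2)) ∧
    (∀ η : ℝ, 0 < η → Frequency (fun n => ∃ t : ℕ, IsTotalStoppingTime n t ∧
      |(t : ℝ) / Real.log n - 2 / Real.log (4 / 3)| ≤ η) δ) ∧
    (∀ (P : ℕ → Prop) (f : ℝ), Frequency P f →
      (∀ (k : ℕ) (A : Fin k → Fin k → ℤ), RankTwo A → ∀ (l : Fin k → ℤ) (c : ℤ) (x₀ : Fin k → ℤ),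
        0 < ∑ i, ∑ j, A i j * x₀ i * x₀ j →
        Tendsto (fun N : ℕ => ({x : Fin k → ℤ | (∀ i, |x i| ≤ N) ∧ 0 < Val A l c x ∧
          P (Val A l c x).toNat}.ncard : ℝ) /
          {x : Fin k → ℤ | (∀ i, |x i| ≤ N) ∧ 0 < Val A l c x}.ncard) atTop (𝓝 f)) ∧
      Tendsto (fun N : ℕ => ({p : ℤ × ℤ | 0 < p.1 ^ 2 + p.2 ^ 2 ∧ p.1 ^ 2 + p.2 ^ 2 ≤ N ∧
        P (p.1 ^ 2 + p.2 ^ 2).toNat}.ncard : ℝ) /
        {p : ℤ × ℤ | 0 < p.1 ^ 2 + p.2 ^ 2 ∧ p.1 ^ 2 + p.2 ^ 2 ≤ N}.ncard) atTop (𝓝 f) ∧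
      Tendsto (fun N : ℕ => ({p : ℕ × ℕ | 1 ≤ p.1 ∧ 1 ≤ p.2 ∧ p.1 ≤ N ∧ p.2 ≤ N ∧
        P (p.1 * p.2)}.ncard : ℝ) / N ^ 2) atTop (𝓝 f) ∧
      (0 < f → ∀ α β γ : ℤ, β ^ 2 ≠ 4 * α * γ → ∃ κ : ℝ, 0 < κ ∧ ∃ n₀ : ℕ, ∀ n : ℕ, n₀ ≤ n →
        κ * n ≤ {p : ℤ × ℤ | (0 < p.1 ∧ p.1 ^ 2 ≤ n) ∧ (0 < p.2 ∧ p.2 ^ 2 ≤ n) ∧
          ∃ t : ℕ, 1 ≤ t ∧ P t ∧ (n : ℤ) = (α * p.1 ^ 2 + β * p.1 * p.2 + γ * p.2 ^ 2) + t}.ncard)) := by
  obtain ⟨δ, h0, h1, h2, h3, h4, h5⟩ := Pool.Agent.Run7.h145.QL.rel_laws Pool.Agent.Run7.h145.QL.QV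
  have hiff : ∀ n : ℕ, (∃ k : ℕ, T^[k] n = 1) ↔ ∃ t, IsTotalStoppingTime n t :=
    Pool.Agent.Run7.h145.QL.hit_iff
  have hH : Pool.Agent.Run7.h145.QL.QV.Fr (fun n => ∃ t, IsTotalStoppingTime n t) δ := h4
  have hodds : ∀ k n : ℕ, Pool.Agent.H499R2.LT.odn k n = odds k n := fun _ _ => rfl
  refine ⟨δ, h0, h1, h2.trans (forall₂_congr fun n _ => hiff n), ?_, ?_, fun m a b hm => ⟨fun x => ?_, ?_⟩,
    fun η hη => ?_, ?_⟩
  · exact Pool.Agent.H499R2.LT.Dn_iff (fun n _ => hiff n) h3
  · exact freq_of (Pool.Agent.Run7.h145.QL.QV.not hH (fun _ => Iff.rfl))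
  · apply freq_of
    have h6 := ((h5 m a b hm).2.2 x).1
    have e : δ / (m : ℝ) ^ 2 * Pool.Agent.H499R2.ND.Phi x = δ * Phi x / m ^ 2 := by
      unfold Phi
      rw [← Pool.Agent.H499R2.ND.phi_cdf]
      ring
    rw [e] at h6
    refine Pool.Agent.Run7.h145.QL.QV.congr 2 (fun n hn => exists_congr fun t => ?_) h6
    rw [bound_iff x (by omega) t, hodds]
    show _ ∧ _ ∧ _ ↔ _
    constructor
    · rintro ⟨g1, g2, g3⟩; exact ⟨g2, g1, g3⟩
    · rintro ⟨g1, g2, g3⟩; exact ⟨g2, g1, g3⟩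
  · exact freq_of (h5 m a b hm).1
  · apply freq_of
    have hrr := Pool.Agent.H499R2.HL.rr_pos
    have hl3 : 0 < Real.log 3 := Real.log_pos (by norm_num)
    have h6 := Pool.Agent.Run7.h145.QL.lln Pool.Agent.Run7.h145.QL.QV (f := fun k _ => (k : ℝ))
      (α := 2 / Real.log (4 / 3))
      (σ := Real.log 3 * Pool.Agent.H499R2.HL.rr) (δ := δ) (η := η) (by positivity) h0.le h1 hη (fun x => by
        have h7 := ((h5 1 0 0 le_rfl).2.2 x).1
        have e1 : δ / ((1 : ℕ) : ℝ) ^ 2 * Pool.Agent.H499R2.ND.Phi x = δ * Pool.Agent.H499R2.ND.Phi x := by simp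
        rw [e1] at h7
        refine Pool.Agent.Run7.h145.QL.QV.congr 0 (fun n _ => exists_congr fun k => and_congr_right fun _ => ?_) h7
        rw [← Pool.Agent.Run7.h145.QL.bk_thr]
        simp [Int.modEq_one]) h4
    refine Pool.Agent.Run7.h145.QL.QV.congr 2 (fun n hn => exists_congr fun t => and_congr_right fun _ => ?_) h6
    have hL : 0 < Real.log n := Real.log_pos (by exact_mod_cast (by omega : 1 < n))
    have e : (t : ℝ) - 2 / Real.log (4 / 3) * Real.log n =
        ((t : ℝ) / Real.log n - 2 / Real.log (4 / 3)) * Real.log n := by field_simp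
    rw [e, abs_mul, abs_of_pos hL]
    exact mul_le_mul_iff_left₀ hL
  · intro P f h
    exact ⟨fun k A hA l c x₀ h0 => Pool.Agent.Run7.h145.QL.X.cubes h hA l c h0,
      Pool.Agent.Run7.h145.QL.X.two_squares h, Pool.Agent.Run7.h145.QL.X.products h,
      fun hf α β γ hd => Pool.Agent.Run7.h145.QL.X.represent hf h hd⟩

end Pool.Agent.Results.MP_f7abf1_nt.QuadraticValues
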