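import Pool.Agent.Run7.h702.BC.K

set_option autoImplicit false

/-!
# The slopes of almost every trajectory of the `3x+1` function, from all its terms and in all windows

Let `T` be the `3x+1` function and `μ = ½ log (4/3)`. For almost all `n` the scaled time is `1 / μ`: the trajectory is,
on the scale of `log n`, a straight line of slope `-μ`. Here is the law for *all* the terms of the trajectory, and for all
the windows, down to the size `log log`, with the exact constant. For `0 < η < ½ log 3` let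

  `κ(η) = 1 / (log 2 - h(1/2 + η / log 3))`, `h(p) = p log (1/p) + (1-p) log (1/(1-p))`.

Let `F` be any function which tends to infinity, and consider the trajectory of `n` down to its first value `T^k n` smaller
than `F n`.

(1), (2) For almost all `n`: for *every* term `x = T^i n` before `T^k n` and *every* `m` with
`(1 + ε) κ(η) log log x ≤ m ≤ k - i`,

  `|log T^m x - (log x - μ m)| ≤ η m`.

In particular (`m = k - i`) the number `m` of the steps from any term `x` to the end satisfies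
`|μ m - log (x / F n)| ≤ η m + log 2`, as soon as it is at least `(1 + ε) κ(η) log log x`. For a constant bound `Y` in the
place of `F n` at most `K N / (log Y)^δ` of the `n ≤ N` are exceptions, for all `Y` and `N`.

(3) The constant `κ(η)` is exact, on both sides: for almost all `n` (all but `K N exp (-(log N)^δ)` of the `n ≤ N`) the part
of the trajectory above `√n` has a window of length `m ≥ (1 - ε) κ(η) log log x` with `log T^m x - (log x - μ m) ≥ η m`,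
and one with `log T^m x - (log x - μ m) ≤ -η m`.

(4) Both together for every `F → ∞`, `F n ≤ √n`.

This is the law of Erdős and Rényi for the longest windows with a given slope, for the single trajectory of an integer and
down to almost bounded values; `T^i n` is there of size `e^l` for about `1 / μ` terms for each `l`, and the proof is a
Borel-Cantelli lemma with the sharp exponent for the successive scales of a trajectory (`Run7/h702/AT`, `BC`), from the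
mixing of the Syracuse random variables in natural density (starting libraries `H499R2`, `R344/TH`).
-/

namespace Pool.Agent.Results.MP_f7abf1_nt.SlopesInAllWindows

open Filter Topology

/-- The `3x+1` function. -/
def T (n : ℕ) : ℕ := if n % 2 = 0 then n / 2 else (3 * n + 1) / 2

/-- The number of the `n`, `1 ≤ n ≤ N`, with the property `P`. -/
noncomputable def count (P : ℕ → Prop) (N : ℕ) : ℝ := (Set.ncard {n : ℕ | 1 ≤ n ∧ n ≤ N ∧ P n} : ℝ)

/-- Almost all `n` have the property `P`: natural density one. -/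
def AlmostAll (P : ℕ → Prop) : Prop := Tendsto (fun N : ℕ => count P N / N) atTop (𝓝 1)

/-- `μ = ½ log (4/3)`. -/
noncomputable def μ : ℝ := Real.log (4 / 3) / 2

/-- `κ(η) = 1 / (log 2 - h(1/2 + η / log 3))`, `h` the binary entropy (natural logarithms). -/
noncomputable def κ (η : ℝ) : ℝ := 1 / (Real.log 2 - Real.binEntropy (1 / 2 + η / Real.log 3))

/-- `T^k n` is the first value smaller than `Y`. -/
def IsEnd (Y : ℝ) (n k : ℕ) : Prop := ((T^[k] n : ℕ) : ℝ) < Y ∧ ∀ j < k, Y ≤ ((T^[j] n : ℕ) : ℝ)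

/-- The trajectory of `n` takes a value smaller than `Y`, and if `T^k n` is the first one: for every term `x = T^i n`,
`i < k`, and every `m` with `c log log x ≤ m ≤ k - i`, `|log T^(i+m) n - (log x - μ m)| ≤ η m`; and if `m = k - i` is at
least `c log log x`, then `|μ m - log (x / Y)| ≤ η m + log 2`. -/
def Straight (c η Y : ℝ) (n : ℕ) : Prop :=
  ∃ k : ℕ, IsEnd Y n k ∧ ∀ i < k,
    (∀ m : ℕ, i + m ≤ k → c * Real.log (Real.log (T^[i] n : ℕ)) ≤ m →
      |Real.log (T^[i + m] n : ℕ) - (Real.log (T^[i] n : ℕ) - μ * m)| ≤ η * m) ∧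
    (c * Real.log (Real.log (T^[i] n : ℕ)) ≤ (k - i : ℕ) →
      |μ * (k - i : ℕ) - Real.log (((T^[i] n : ℕ) : ℝ) / Y)| ≤ η * (k - i : ℕ) + Real.log 2)

/-- There is a window `T^i n, …, T^(i+m) n`, of length `m ≥ c log log x`, `x = T^i n`, the terms up to `T^(i+m) n` being
at least `Y`, with `s (log T^(i+m) n - (log x - μ m)) ≥ η m`. -/
def HasWindow (s c η Y : ℝ) (n : ℕ) : Prop :=
  ∃ i m : ℕ, (∀ j ≤ i + m, Y ≤ ((T^[j] n : ℕ) : ℝ)) ∧ c * Real.log (Real.log (T^[i] n : ℕ)) ≤ m ∧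
    η * m ≤ s * (Real.log (T^[i + m] n : ℕ) - (Real.log (T^[i] n : ℕ) - μ * m))

theorem mu_eq : Run7.h702.BC.mu = μ := by
  unfold Run7.h702.BC.mu μ
  have h4 : Real.log 4 = 2 * Real.log 2 := by
    rw [show (4 : ℝ) = 2 ^ 2 by norm_num, Real.log_pow]; norm_num
  rw [Real.log_div (by norm_num) (by norm_num), h4]
  ring

theorem kap (ε η : ℝ) : (1 + ε) * κ η = (1 + ε) / Run7.h702.BC.rate (1 / 2 + η / Real.log 3) := by
  unfold κ Run7.h702.BC.rate
  ring

theorem kap' (ε η : ℝ) : (1 - ε) * κ η = (1 - ε) / Run7.h702.BC.rate (1 / 2 + η / Real.log 3) := by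
  unfold κ Run7.h702.BC.rate
  ring

theorem T_half (x : ℕ) : (x : ℝ) ≤ 2 * (T x : ℝ) := by
  have : x ≤ 2 * T x := by unfold T; split_ifs <;> omega
  exact_mod_cast this

theorem straight_of {c η Y : ℝ} (hY : 2 ≤ Y) {n : ℕ} (h1 : ∃ k, IsEnd Y n k)
    (h2 : Run7.h702.BC.PL 1 c η Y (n : ℤ)) : Straight c η Y n := by
  obtain ⟨k, hk⟩ := h1
  have hall : ∀ i < k, ∀ m : ℕ, i + m ≤ k → c * Real.log (Real.log (T^[i] n : ℕ)) ≤ m →
      |Real.log (T^[i + m] n : ℕ) - (Real.log (T^[i] n : ℕ) - μ * m)| ≤ η * m := by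
    intro i hi m hm hc
    have h3 := h2 i m (fun j hj => by
      rw [← Run7.h702.BC.Tn_castR]; exact hk.2 j (by omega)) (fun j hj => by
      rw [← Run7.h702.BC.Tn_castR]; exact hk.2 _ (by omega)) (by
      rw [← Run7.h702.BC.Tn_castR]; exact hc)
    rw [← Run7.h702.BC.Tn_castR, ← Run7.h702.BC.Tn_castR, mu_eq] at h3
    have e : ∀ a b d : ℝ, a - b + d = a - (b - d) := fun a b d => by ring
    rw [e] at h3
    exact h3
  refine ⟨k, hk, fun i hi => ⟨hall i hi, fun hc => ?_⟩⟩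
  have h3 := hall i hi (k - i) (by omega) hc
  rw [Nat.add_sub_cancel' hi.le] at h3
  have hY0 : 0 < Y := by linarith
  have hx := hk.2 i hi
  have hx0 : (0 : ℝ) < ((T^[i] n : ℕ) : ℝ) := by linarith
  -- the last value
  have h4 : Y / 2 ≤ ((T^[k] n : ℕ) : ℝ) := by
    obtain ⟨k', rfl⟩ : ∃ k', k = k' + 1 := ⟨k - 1, by omega⟩
    have h5 := hk.2 k' (by omega)
    have h6 := T_half (T^[k'] n)
    rw [Function.iterate_succ_apply']
    linarith
  have h5 : Real.log Y - Real.log 2 ≤ Real.log ((T^[k] n : ℕ) : ℝ) := by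
    rw [← Real.log_div hY0.ne' (by norm_num)]
    exact Real.log_le_log (by linarith) h4
  have h6 : Real.log ((T^[k] n : ℕ) : ℝ) ≤ Real.log Y := Real.log_le_log (by linarith) hk.1.le
  have h7 : 0 < Real.log 2 := Real.log_pos (by norm_num)
  rw [Real.log_div hx0.ne' hY0.ne']
  rw [abs_le] at h3 ⊢
  constructor
  · linarith [h3.2]
  · linarith [h3.1]

theorem Straight.mono {c η Y Y' : ℝ} (hY0 : 0 < Y) {n : ℕ} (hY : Y ≤ Y') (h : Straight c η Y n) : Straight c η Y' n := by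
  classical
  obtain ⟨k, hk, h3⟩ := h
  have hex : ∃ k : ℕ, ((T^[k] n : ℕ) : ℝ) < Y' := ⟨k, lt_of_lt_of_le hk.1 hY⟩
  have hle : Nat.find hex ≤ k := Nat.find_min' hex (lt_of_lt_of_le hk.1 hY)
  obtain ⟨l, hl⟩ : ∃ l, l = Nat.find hex := ⟨_, rfl⟩
  have hl' : IsEnd Y' n l := by
    rw [hl]
    exact ⟨Nat.find_spec hex, fun j hj => not_lt.1 (Nat.find_min hex hj)⟩
  rw [← hl] at hle
  refine ⟨l, hl', fun i hi => ⟨fun m hm hc => (h3 i (by omega)).1 m (by omega) hc, fun hc => ?_⟩⟩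
  have h4 := (h3 i (by omega)).1 (l - i) (by omega) hc
  rw [Nat.add_sub_cancel' hi.le] at h4
  have hY0' : 0 < Y' := by linarith
  have hx := hl'.2 i hi
  have hx0 : (0 : ℝ) < ((T^[i] n : ℕ) : ℝ) := by linarith
  have h5 : Y' / 2 ≤ ((T^[l] n : ℕ) : ℝ) := by
    obtain ⟨k', rfl⟩ : ∃ k', l = k' + 1 := ⟨l - 1, by omega⟩
    have h5 := hl'.2 k' (by omega)
    have h6 := T_half (T^[k'] n)
    rw [Function.iterate_succ_apply']
    linarith
  have h6 : Real.log Y' - Real.log 2 ≤ Real.log ((T^[l] n : ℕ) : ℝ) := by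
    rw [← Real.log_div hY0'.ne' (by norm_num)]
    exact Real.log_le_log (by linarith) h5
  have h7 : Real.log ((T^[l] n : ℕ) : ℝ) ≤ Real.log Y' := Real.log_le_log (by linarith) hl'.1.le
  have h8 : 0 < Real.log 2 := Real.log_pos (by norm_num)
  rw [Real.log_div hx0.ne' hY0'.ne']
  rw [abs_le] at h4 ⊢
  constructor
  · linarith [h4.2]
  · linarith [h4.1]

theorem part1 {η : ℝ} (hη0 : 0 < η) (hη : η < Real.log 3 / 2) {ε : ℝ} (hε0 : 0 < ε) (hε : ε ≤ 1) :
    ∃ δ K : ℝ, 0 < δ ∧ 0 < K ∧ ∀ Y : ℝ, 2 ≤ Y → ∀ N : ℕ,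
      count (fun n => ¬ Straight ((1 + ε) * κ η) η Y n) N ≤ K * N / (Real.log Y) ^ δ := by
  classical
  obtain ⟨δ₁, K₁, hδ₁, hK₁, h1⟩ := Run7.h702.BC.typ_nat (c := 3 / 4) (by norm_num) (by norm_num) (ε := 1) (by norm_num)
    (by norm_num)
  obtain ⟨δ₂, K₂, hδ₂, hK₂, h2⟩ := Run7.h702.BC.PL_count odd_one isCoprime_one_left hη0 hη hε0 hε
  rw [← kap] at h2
  refine ⟨min δ₁ δ₂, (K₁ + K₂) * (2 ^ (max δ₁ δ₂)), by positivity, by positivity, fun Y hY N => ?_⟩
  have hsub : {n : ℕ | 1 ≤ n ∧ n ≤ N ∧ ¬ Straight ((1 + ε) * κ η) η Y n} ⊆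
      {n : ℕ | 1 ≤ n ∧ n ≤ N ∧ ¬ Run7.h702.BC.TypN (3 / 4) 1 Y n} ∪
      {n : ℕ | 1 ≤ n ∧ n ≤ N ∧ ¬ Run7.h702.BC.PL 1 ((1 + ε) * κ η) η Y (n : ℤ)} := by
    rintro n ⟨g1, g2, g3⟩
    by_cases g4 : Run7.h702.BC.TypN (3 / 4) 1 Y n
    · right
      refine ⟨g1, g2, fun g5 => g3 (straight_of hY ?_ g5)⟩
      obtain ⟨k, g6, g7, _⟩ := g4
      exact ⟨k, g6, g7⟩
    · left
      exact ⟨g1, g2, g4⟩
  have hfin : ∀ P : ℕ → Prop, {n : ℕ | 1 ≤ n ∧ n ≤ N ∧ P n}.Finite := fun P =>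
    (Set.finite_Icc 1 N).subset (fun n hn => ⟨hn.1, hn.2.1⟩)
  have h3 : count (fun n => ¬ Straight ((1 + ε) * κ η) η Y n) N ≤
      (Set.ncard {n : ℕ | 1 ≤ n ∧ n ≤ N ∧ ¬ Run7.h702.BC.TypN (3 / 4) 1 Y n} : ℝ) +
      (Set.ncard {n : ℕ | 1 ≤ n ∧ n ≤ N ∧ ¬ Run7.h702.BC.PL 1 ((1 + ε) * κ η) η Y (n : ℤ)} : ℝ) := by
    unfold count
    exact_mod_cast (Set.ncard_le_ncard hsub ((hfin _).union (hfin _))).trans (Set.ncard_union_le _ _)
  have h4 := h1 Y hY N
  have h5 := (Run7.h702.BC.ncard_le (fun n => Run7.h702.BC.PL 1 ((1 + ε) * κ η) η Y (n : ℤ))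
    (Run7.h702.BC.PL 1 ((1 + ε) * κ η) η Y) (fun n _ h => h) N).trans (h2 Y hY N)
  -- exponents
  have hlog : Real.log 2 ≤ Real.log Y := Real.log_le_log (by norm_num) hY
  have hlog2 : 1 / 2 < Real.log 2 := by have := Real.log_two_gt_d9; linarith
  have hl0 : 0 < Real.log Y := by linarith
  have hexp : ∀ s : ℝ, min δ₁ δ₂ ≤ s → s ≤ max δ₁ δ₂ →
      1 / (Real.log Y) ^ s ≤ 2 ^ (max δ₁ δ₂) / (Real.log Y) ^ (min δ₁ δ₂) := by
    intro s hs1 hs2
    have hs0 : 0 < s := lt_of_lt_of_le (by positivity) hs1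
    rw [div_le_div_iff₀ (by positivity) (by positivity), one_mul]
    -- `L ^ min ≤ 2 ^ max L ^ s`
    have e1 : (1 : ℝ) ≤ (2 * Real.log Y) ^ (s - min δ₁ δ₂) := Real.one_le_rpow (by linarith) (by linarith)
    have e2 : (2 * Real.log Y) ^ (s - min δ₁ δ₂) = 2 ^ (s - min δ₁ δ₂) * (Real.log Y) ^ (s - min δ₁ δ₂) :=
      Real.mul_rpow (by norm_num) hl0.le
    have e3 : (2 : ℝ) ^ (s - min δ₁ δ₂) ≤ 2 ^ (max δ₁ δ₂) := by
      apply Real.rpow_le_rpow_of_exponent_le (by norm_num)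
      have : 0 < min δ₁ δ₂ := by positivity
      linarith
    have e4 : (Real.log Y) ^ s = (Real.log Y) ^ (min δ₁ δ₂) * (Real.log Y) ^ (s - min δ₁ δ₂) := by
      rw [← Real.rpow_add hl0]; congr 1; ring
    rw [e4]
    rw [e2] at e1
    have e5 : 0 < (Real.log Y) ^ (s - min δ₁ δ₂) := by positivity
    have e6 : 0 < (Real.log Y) ^ (min δ₁ δ₂) := by positivity
    calc (Real.log Y) ^ (min δ₁ δ₂) = (Real.log Y) ^ (min δ₁ δ₂) * 1 := (mul_one _).symm
      _ ≤ (Real.log Y) ^ (min δ₁ δ₂) * (2 ^ (s - min δ₁ δ₂) * (Real.log Y) ^ (s - min δ₁ δ₂)) :=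
          mul_le_mul_of_nonneg_left e1 e6.le
      _ ≤ (Real.log Y) ^ (min δ₁ δ₂) * (2 ^ (max δ₁ δ₂) * (Real.log Y) ^ (s - min δ₁ δ₂)) := by
          apply mul_le_mul_of_nonneg_left _ e6.le
          exact mul_le_mul_of_nonneg_right e3 e5.le
      _ = _ := by ring
  have h6 : K₁ * N / (Real.log Y) ^ δ₁ ≤ K₁ * N * (2 ^ (max δ₁ δ₂) / (Real.log Y) ^ (min δ₁ δ₂)) := by
    have := mul_le_mul_of_nonneg_left (hexp δ₁ (min_le_left _ _) (le_max_left _ _)) (show 0 ≤ K₁ * N by positivity)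
    rwa [mul_one_div] at this
  have h7 : K₂ * N / (Real.log Y) ^ δ₂ ≤ K₂ * N * (2 ^ (max δ₁ δ₂) / (Real.log Y) ^ (min δ₁ δ₂)) := by
    have := mul_le_mul_of_nonneg_left (hexp δ₂ (min_le_right _ _) (le_max_right _ _)) (show 0 ≤ K₂ * N by positivity)
    rwa [mul_one_div] at this
  calc _ ≤ K₁ * N * (2 ^ (max δ₁ δ₂) / (Real.log Y) ^ (min δ₁ δ₂)) +
        K₂ * N * (2 ^ (max δ₁ δ₂) / (Real.log Y) ^ (min δ₁ δ₂)) := by linarith
    _ = _ := by ring

theorem part3 {η : ℝ} (hη0 : 0 < η) (hη : η < Real.log 3 / 2) {ε : ℝ} (hε0 : 0 < ε) (hε : ε < 1) {s : ℝ}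
    (hs : s = 1 ∨ s = -1) : ∃ δ K : ℝ, 0 < δ ∧ 0 < K ∧ ∀ N : ℕ, 1 ≤ N →
      count (fun n => ¬ HasWindow s ((1 - ε) * κ η) η (Real.sqrt n) n) N ≤ K * N * Real.exp (-(Real.log N) ^ δ) := by
  classical
  obtain ⟨δ, K, hδ, hK, h⟩ := Run7.h702.BC.QL_count (d := 1) (by norm_num) hη0 hη hε0 hε hs
  rw [← kap'] at h
  refine ⟨δ, K, hδ, hK, fun N hN => (Run7.h702.BC.ncard_le _ (Run7.h702.BC.QL 1 s ((1 - ε) * κ η) η) ?_ N).trans (h N hN)⟩
  rintro n _ ⟨i, m, _, g2, g3, g4⟩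
  refine ⟨i, m, fun j hj => ?_, ?_, ?_⟩
  · have := g4 j hj
    rw [← Run7.h702.BC.Tn_castR] at this
    exact_mod_cast this
  · rw [← Run7.h702.BC.Tn_castR] at g2
    exact g2
  · rw [← Run7.h702.BC.Tn_castR, ← Run7.h702.BC.Tn_castR, mu_eq] at g3
    have e : ∀ a b d : ℝ, a - b + d = a - (b - d) := fun a b d => by ring
    rw [e] at g3
    exact g3

theorem HasWindow.mono {s c η Y Y' : ℝ} {n : ℕ} (hY : Y' ≤ Y) (h : HasWindow s c η Y n) : HasWindow s c η Y' n := by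
  obtain ⟨i, m, g1, g2, g3⟩ := h
  exact ⟨i, m, fun j hj => hY.trans (g1 j hj), g2, g3⟩

theorem result (η : ℝ) (hη0 : 0 < η) (hη : η < Real.log 3 / 2) :
    (∀ ε : ℝ, 0 < ε → ε ≤ 1 → ∃ δ K : ℝ, 0 < δ ∧ 0 < K ∧ ∀ Y : ℝ, 2 ≤ Y → ∀ N : ℕ,
      count (fun n => ¬ Straight ((1 + ε) * κ η) η Y n) N ≤ K * N / (Real.log Y) ^ δ) ∧
    (∀ ε : ℝ, 0 < ε → ε ≤ 1 → ∀ F : ℕ → ℝ, Tendsto F atTop atTop →
      AlmostAll (fun n => Straight ((1 + ε) * κ η) η (F n) n)) ∧
    (∀ ε : ℝ, 0 < ε → ε < 1 → ∀ s : ℝ, s = 1 ∨ s = -1 → ∃ δ K : ℝ, 0 < δ ∧ 0 < K ∧ ∀ N : ℕ, 1 ≤ N →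
      count (fun n => ¬ HasWindow s ((1 - ε) * κ η) η (Real.sqrt n) n) N ≤ K * N * Real.exp (-(Real.log N) ^ δ)) ∧
    (∀ ε : ℝ, 0 < ε → ε < 1 → ∀ F : ℕ → ℝ, Tendsto F atTop atTop → (∀ n, F n ≤ Real.sqrt n) →
      AlmostAll (fun n => Straight ((1 + ε) * κ η) η (F n) n ∧ HasWindow 1 ((1 - ε) * κ η) η (F n) n ∧
        HasWindow (-1) ((1 - ε) * κ η) η (F n) n)) := by
  have p2 : ∀ ε : ℝ, 0 < ε → ε ≤ 1 → ∀ F : ℕ → ℝ, Tendsto F atTop atTop →
      AlmostAll (fun n => Straight ((1 + ε) * κ η) η (F n) n) := by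
    intro ε h0 h1 F hF
    obtain ⟨δ, K, hδ, hK, h⟩ := part1 hη0 hη h0 h1
    have hF' : Tendsto (fun n => max (F n) 2) atTop atTop := tendsto_atTop_mono (fun n => le_max_left _ _) hF
    have key := Run7.h702.BC.density_one (D := fun Y n => Straight ((1 + ε) * κ η) η (max Y 2) n)
      (fun Y Y' n hY h => h.mono (by positivity) (max_le_max_right 2 hY)) hδ hK (fun Y hY N => by
        simp only [max_eq_left hY]
        exact h Y hY N) F hF
    -- `F n ≥ 2` for large `n`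
    obtain ⟨n₀, hn₀⟩ := Filter.tendsto_atTop_atTop.1 hF 2
    unfold AlmostAll
    have hdiff : ∀ N : ℕ, (Set.ncard {n : ℕ | 1 ≤ n ∧ n ≤ N ∧ Straight ((1 + ε) * κ η) η (max (F n) 2) n} : ℝ) / N -
        n₀ / N ≤ count (fun n => Straight ((1 + ε) * κ η) η (F n) n) N / N := by
      intro N
      rcases Nat.eq_zero_or_pos N with hN | hN
      · subst hN; simp
      have hNR : (0 : ℝ) < N := by exact_mod_cast hN
      rw [← sub_div]
      apply div_le_div_of_nonneg_right _ hNR.le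
      unfold count
      have hs : {n : ℕ | 1 ≤ n ∧ n ≤ N ∧ Straight ((1 + ε) * κ η) η (max (F n) 2) n} ⊆
          {n : ℕ | 1 ≤ n ∧ n ≤ N ∧ Straight ((1 + ε) * κ η) η (F n) n} ∪ ((Finset.range n₀ : Finset ℕ) : Set ℕ) := by
        rintro n ⟨g1, g2, g3⟩
        rcases lt_or_ge n n₀ with g4 | g4
        · right
          rw [Finset.mem_coe, Finset.mem_range]; exact g4
        · left
          refine ⟨g1, g2, ?_⟩
          rwa [max_eq_left (hn₀ n g4)] at g3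
      have h5 := (Set.ncard_le_ncard hs (((Set.finite_Icc 1 N).subset (fun n hn => ⟨hn.1, hn.2.1⟩)).union
        (Finset.finite_toSet _))).trans (Set.ncard_union_le _ _)
      rw [Set.ncard_coe_finset, Finset.card_range] at h5
      have h6 : (Set.ncard {n : ℕ | 1 ≤ n ∧ n ≤ N ∧ Straight ((1 + ε) * κ η) η (max (F n) 2) n} : ℝ) ≤
          (Set.ncard {n : ℕ | 1 ≤ n ∧ n ≤ N ∧ Straight ((1 + ε) * κ η) η (F n) n} : ℝ) + n₀ := by exact_mod_cast h5
      linarith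
    have hlim : Tendsto (fun N : ℕ => (Set.ncard {n : ℕ | 1 ≤ n ∧ n ≤ N ∧ Straight ((1 + ε) * κ η) η (max (F n) 2) n} : ℝ) / N -
        n₀ / N) atTop (𝓝 (1 - 0)) :=
      key.sub (tendsto_const_nhds.div_atTop tendsto_natCast_atTop_atTop)
    rw [sub_zero] at hlim
    refine tendsto_of_tendsto_of_tendsto_of_le_of_le' hlim tendsto_const_nhds (Eventually.of_forall hdiff) ?_
    filter_upwards [eventually_ge_atTop 1] with N hN
    have hNR : (0 : ℝ) < N := by exact_mod_cast hN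
    unfold count
    rw [div_le_one hNR]
    have h6 : {n : ℕ | 1 ≤ n ∧ n ≤ N ∧ Straight ((1 + ε) * κ η) η (F n) n} ⊆ ((Finset.Icc 1 N : Finset ℕ) : Set ℕ) := by
      intro n hn
      rw [Finset.mem_coe, Finset.mem_Icc]; exact ⟨hn.1, hn.2.1⟩
    have h7 := Set.ncard_le_ncard h6 (Finset.finite_toSet _)
    rw [Set.ncard_coe_finset, Nat.card_Icc] at h7
    have h8 : Set.ncard {n : ℕ | 1 ≤ n ∧ n ≤ N ∧ Straight ((1 + ε) * κ η) η (F n) n} ≤ N := by omega
    exact_mod_cast h8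
  refine ⟨fun ε h0 h1 => part1 hη0 hη h0 h1, p2, fun ε h0 h1 s hs => part3 hη0 hη h0 h1 hs, fun ε h0 h1 F hF hF2 => ?_⟩
  have hw : ∀ s : ℝ, s = 1 ∨ s = -1 → AlmostAll (fun n => HasWindow s ((1 - ε) * κ η) η (F n) n) := by
    intro s hs
    obtain ⟨δ, K, hδ, _, h3⟩ := part3 hη0 hη h0 h1 hs
    apply Run7.h702.BC.density_exp hδ (K := K)
    intro N hN
    exact (Run7.h702.BC.ncard_mono (fun n _ h => h.mono (hF2 n)) N).trans (h3 N hN)
  exact Run7.h702.BC.and_density (p2 ε h0 h1.le F hF)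
    (Run7.h702.BC.and_density (hw 1 (Or.inl rfl)) (hw (-1) (Or.inr rfl)))

end Pool.Agent.Results.MP_f7abf1_nt.SlopesInAllWindows
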